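import Pool.Agent.Helper81.UT.Pair

/-!
# Block UT-GB: scalars

`scalar`: for isotropic `u` let `g u = m_u u`. If `h u v ≠ 0` then `h u v = h (g u) (g v) = m_u star m_v h u v`,
so `m_u = m_v` (norm one). Take `u` isotropic (`exists_iso`), `v` with `h u v = 1` (`exists_pair`),
`m = m_u = m_v`. For `w` orthogonal to `u`, `v` choose `c` with `trc c = h w w` (`trc_surj`): `y = w + c u + v` is
isotropic and `h u y = 1`, so `g y = m y` and `g w = m w`. With `decomp` `g x = m x` for all `x`.
`exists_perp`: there is `w ≠ 0` orthogonal to two given vectors (dimension at least three).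
`connected`: if `h u v ≠ 0` there is `x = a u + b v` isotropic with `nm (h x u) = nm (h x v) = 1` (`a = b`-type
choice: `nm a = nm b = (nm (h u v))⁻¹` and `a star b h u v` fixed by `star`). If `h u v = 0` there is an
isotropic `y` with `h y u ≠ 0` and `h y v ≠ 0`: if `v = c u`, `exists_pair`; otherwise let `h u u' = 1`,
`h v v' = 1` be hyperbolic pairs; if none of `u'`, `v'` is good then `h u' v = 0`, `h v' u = 0` and a
combination `u' + c v'` with `c ≠ 0`, `trc (star c h u' v') = 0` is good (`c = star (h u' v')⁻¹`-type choice, or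
`c = 1` if `h u' v' = 0`).
-/

set_option autoImplicit false

namespace Pool.Agent.Helper81.UT

variable {K V : Type*} [Field K] [Finite K] [CharP K 2] [StarRing K] [AddCommGroup V] [Module K V]
  [FiniteDimensional K V] {h : V → V → K}

omit [Finite K] [CharP K 2] [FiniteDimensional K V] in
private theorem same6 (hh : Herm h) (g : V ≃ₗ[K] V) (hg : ∀ x y, h (g x) (g y) = h x y)
    {u v : V} {m n : K} (huv : h u v ≠ 0) (hu : g u = m • u) (hv : g v = n • v) (hn : nm n = 1) :
    m = n := by
  have h1 := hg u v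
  rw [hu, hv, hh.smul, hh.smul_right] at h1
  have h2 : m * star n = 1 := by
    apply mul_right_cancel₀ huv
    rw [one_mul, mul_assoc, h1]
  rw [nm] at hn
  have h3 : star n ≠ 0 := by
    intro h0
    rw [h0, mul_zero] at h2
    exact zero_ne_one h2
  exact mul_right_cancel₀ h3 (h2.trans hn.symm)

theorem scalar (hh : Herm h) (hstar : ∃ x : K, star x ≠ x) (hdim : 3 ≤ Module.finrank K V)
    (g : V ≃ₗ[K] V) (hg : ∀ x y, h (g x) (g y) = h x y) (H : ∀ u, Iso h u → Eqv K u (g u)) :
    ∃ m : K, nm m = 1 ∧ ∀ x, g x = m • x := by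
  obtain ⟨u, hu⟩ := exists_iso hh hstar (by omega)
  obtain ⟨v, hv, huv⟩ := exists_pair hh hstar hu
  have hvu : h v u = 1 := by rw [← hh.symm, huv, star_one]
  obtain ⟨m, hm, hgu⟩ := H u hu
  obtain ⟨n, hn, hgv⟩ := H v hv
  have hmn : m = n := same6 hh g hg (by rw [huv]; exact one_ne_zero) hgu hgv hn
  rw [← hmn] at hgv
  refine ⟨m, hm, fun x => ?_⟩
  obtain ⟨w, hwu, hwv, hw⟩ := decomp hh hu hv huv x
  obtain ⟨c, hc⟩ := trc_surj hstar (hh.self w)
  have huw : h u w = 0 := hh.eq_zero_comm.1 hwu
  have hvw : h v w = 0 := hh.eq_zero_comm.1 hwv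
  obtain ⟨y, hy⟩ : ∃ y, y = w + c • u + v := ⟨_, rfl⟩
  have huy : h u y = 1 := by
    rw [hy, hh.add_right, hh.add_right, hh.smul_right, huw, hu.2, huv]
    ring
  have hyI : Iso h y := by
    refine ⟨?_, ?_⟩
    · intro h0
      rw [h0, hh.zero_right] at huy
      exact zero_ne_one huy
    · have h1 : h w y = h w w := by
        rw [hy, hh.add_right, hh.add_right, hh.smul_right, hwu, hwv]
        ring
      have h2 : h v y = star c := by
        rw [hy, hh.add_right, hh.add_right, hh.smul_right, hvw, hvu, hv.2]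
        ring
      have h0 : ∀ z, h (w + c • u + v) z = h w z + c * h u z + h v z := by
        intro z
        rw [hh.add, hh.add, hh.smul]
      have h3 : h y y = h w w + c * 1 + star c := by
        rw [← h1, ← huy, ← h2, ← h0 y, ← hy]
      rw [h3, mul_one, add_assoc]
      rw [trc] at hc
      rw [hc]
      exact CharTwo.add_self_eq_zero _
  obtain ⟨k, hk, hgy⟩ := H y hyI
  have hmk : m = k := same6 hh g hg (by rw [huy]; exact one_ne_zero) hgu hgy hk
  rw [← hmk] at hgy
  have hww : w = y - c • u - v := by rw [hy]; module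
  have hgw : g w = m • w := by
    rw [hww, map_sub, map_sub, map_smul, hgy, hgu, hgv]
    module
  rw [hw, map_add, map_add, map_smul, map_smul, hgu, hgv, hgw]
  module

theorem exists_perp (hh : Herm h) (hdim : 3 ≤ Module.finrank K V) (u v : V) :
    ∃ w, w ≠ 0 ∧ h w u = 0 ∧ h w v = 0 := by
  let f : V →ₗ[K] K × K :=
    { toFun := fun x => (h x u, h x v)
      map_add' := fun x y => by rw [hh.add, hh.add]; rfl
      map_smul' := fun c x => by rw [hh.smul, hh.smul]; rfl }
  have h1 : LinearMap.ker f ≠ ⊥ := by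
    apply LinearMap.ker_ne_bot_of_finrank_lt
    rw [Module.finrank_prod, Module.finrank_self]
    omega
  obtain ⟨w, hw, hw0⟩ := (Submodule.ne_bot_iff _).1 h1
  rw [LinearMap.mem_ker] at hw
  have h2 : (h w u, h w v) = ((0 : K), (0 : K)) := hw
  exact ⟨w, hw0, congrArg Prod.fst h2, congrArg Prod.snd h2⟩

omit [FiniteDimensional K V] in
private theorem mid6 (hh : Herm h) {u v : V} (hu : Iso h u) (hv : Iso h v) (huv : h u v ≠ 0) :
    ∃ x, Iso h x ∧ nm (h u x) = 1 ∧ nm (h x v) = 1 := by
  obtain ⟨d, hd⟩ : ∃ d, d = h u v := ⟨_, rfl⟩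
  have hvu : h v u = star d := by rw [← hh.symm, hd]
  rw [← hd] at huv
  have hsd : star d ≠ 0 := fun h0 => huv (star_eq_zero.1 h0)
  have hnd : nm d ≠ 0 := fun h0 => huv (nm_eq_zero.1 h0)
  obtain ⟨t, ht, htt⟩ := exists_sqrt (s := (nm d)⁻¹) (by rw [star_inv₀, star_nm])
  have hstar_a : star (star d / d * t) = d / star d * t := by
    rw [star_mul, star_div₀, star_star, ht, mul_comm]
  have hxu : h ((star d / d * t) • u + d⁻¹ • v) u = d⁻¹ * star d := by
    rw [hh.add, hh.smul, hh.smul, hu.2, hvu]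
    ring
  have hxv : h ((star d / d * t) • u + d⁻¹ • v) v = star d / d * t * d := by
    rw [hh.add, hh.smul, hh.smul, hv.2, ← hd]
    ring
  have hn1 : nm (d⁻¹ * star d) = 1 := by
    rw [nm_mul, nm_inv, nm_star, inv_mul_cancel₀ hnd]
  refine ⟨(star d / d * t) • u + d⁻¹ • v, ⟨?_, ?_⟩, ?_, ?_⟩
  · intro h0
    rw [h0, hh.zero_left] at hxu
    rw [← hxu, nm_zero] at hn1
    exact zero_ne_one hn1
  · rw [hh.add_right, hh.smul_right, hh.smul_right, hxu, hxv, hstar_a, star_inv₀]
    have h1 : d / star d * t * (d⁻¹ * star d) + (star d)⁻¹ * (star d / d * t * d) = t + t := by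
      field_simp
    rw [h1]
    exact CharTwo.add_self_eq_zero _
  · rw [hh.nm_comm, hxu, hn1]
  · rw [hxv]
    have h1 : star d / d * t * d = star d * t := by
      field_simp
    have h2 : nm t = t * t := by rw [nm, ht]
    rw [h1, nm_mul, nm_star, h2, htt, mul_inv_cancel₀ hnd]

theorem connected (hh : Herm h) (hstar : ∃ x : K, star x ≠ x) {u v : V} (hu : Iso h u)
    (hv : Iso h v) : ∃ x y z, Iso h x ∧ Iso h y ∧ Iso h z ∧ nm (h u x) = 1 ∧ nm (h x y) = 1 ∧
      nm (h y z) = 1 ∧ nm (h z v) = 1 := by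
  by_cases huv : h u v = 0
  · obtain ⟨u', hu', huu⟩ := exists_pair hh hstar hu
    obtain ⟨v', hv', hvv⟩ := exists_pair hh hstar hv
    have huu' : h u' u = 1 := by rw [← hh.symm, huu, star_one]
    have hvv' : h v' v = 1 := by rw [← hh.symm, hvv, star_one]
    obtain ⟨y, hy, hyu, hyv⟩ : ∃ y, Iso h y ∧ h y u ≠ 0 ∧ h y v ≠ 0 := by
      by_cases h1 : h u' v = 0
      · by_cases h2 : h v' u = 0
        · obtain ⟨c, hc0, hc⟩ : ∃ c : K, c ≠ 0 ∧ trc (star c * h u' v') = 0 := by
            by_cases h3 : h u' v' = 0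
            · exact ⟨1, one_ne_zero, by rw [h3, mul_zero, trc, star_zero, add_zero]⟩
            · refine ⟨(star (h u' v'))⁻¹, ?_, ?_⟩
              · exact inv_ne_zero fun h0 => h3 (star_eq_zero.1 h0)
              · rw [star_inv₀, star_star, inv_mul_cancel₀ h3, trc, star_one]
                exact CharTwo.add_self_eq_zero _
          have hyu : h (u' + c • v') u = 1 := by
            rw [hh.add, hh.smul, h2, huu', mul_zero, add_zero]
          refine ⟨u' + c • v', ⟨?_, ?_⟩, ?_, ?_⟩
          · intro h0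
            rw [h0, hh.zero_left] at hyu
            exact zero_ne_one hyu
          · have h4 : c * h v' u' = star (star c * h u' v') := by
              rw [star_mul, star_star, hh.symm, mul_comm]
            rw [trc] at hc
            rw [hh.add, hh.smul, hh.add_right, hh.add_right, hh.smul_right, hh.smul_right, hu'.2,
              hv'.2, mul_zero, add_zero, zero_add, h4]
            exact hc
          · rw [hyu]
            exact one_ne_zero
          · rw [hh.add, hh.smul, h1, hvv', zero_add, mul_one]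
            exact hc0
        · exact ⟨v', hv', h2, by rw [hvv']; exact one_ne_zero⟩
      · exact ⟨u', hu', by rw [huu']; exact one_ne_zero, h1⟩
    obtain ⟨x, hx, h1, h2⟩ := mid6 hh hu hy (fun h0 => hyu (hh.eq_zero_comm.1 h0))
    obtain ⟨z, hz, h3, h4⟩ := mid6 hh hy hv hyv
    exact ⟨x, y, z, hx, hy, hz, h1, h2, h3, h4⟩
  · obtain ⟨x, hx, h1, h2⟩ := mid6 hh hu hv huv
    obtain ⟨z, hz, hvz⟩ := exists_pair hh hstar hv
    refine ⟨x, v, z, hx, hv, hz, h1, h2, ?_, ?_⟩
    · rw [hvz, nm_one]
    · rw [hh.nm_comm, hvz, nm_one]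

end Pool.Agent.Helper81.UT
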