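import Pool.Agent.Helper81.UT.Tv
import Pool.Agent.Helper81.UT.Scal

/-!
# Block UT-GD: the group generated by the transvections and its quotient by the center

`Tvs h`: the set of the transvections; `Gr h`: the group generated by them. `isom`: closure induction.
`center_iff`: `g` is central iff it commutes with all transvections, and `g t_u g⁻¹ = t_{g u}` (`tv_conj`), so iff
`Eqv K u (g u)` for all isotropic `u` (`tv_eq_iff`). `center_one`: by `scalar`, `g x = m x`; `g w = w` for some
`w ≠ 0`, so `m = 1`. `order_mk`: `(t_u t_v)^k` fixes a vector `w ≠ 0` orthogonal to `u` and `v`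
(`exists_perp`), so if it is central then it is `1`; hence the orders of `t_u t_v` in `Gr h` and of its image
modulo the center are equal (`orderOf_eq_orderOf_iff`).
`conj_mk`: if `nm (h u v) = 1` then `t_u t_v` has order three, so `t_v = (t_u t_v) t_u (t_u t_v)⁻¹`; use
`connected`.
-/

set_option autoImplicit false

namespace Pool.Agent.Helper81.UT

variable {K V : Type*} [Field K] [Finite K] [CharP K 2] [StarRing K] [AddCommGroup V] [Module K V]
  [FiniteDimensional K V] {h : V → V → K}

/-- The set of the unitary transvections. -/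
def Tvs (h : V → V → K) : Set (V ≃ₗ[K] V) :=
  {g | ∃ u : V, u ≠ 0 ∧ h u u = 0 ∧ ∀ x, g x = x + h x u • u}

/-- The group generated by the unitary transvections. -/
def Gr (h : V → V → K) : Subgroup (V ≃ₗ[K] V) := Subgroup.closure (Tvs h)

theorem tv_mem_Tvs (hh : Herm h) {u : V} (hu : Iso h u) : tv hh hu ∈ Tvs h :=
  ⟨u, hu.1, hu.2, fun _ => rfl⟩

/-- The transvection as an element of the group. -/
def tg (hh : Herm h) {u : V} (hu : Iso h u) : Gr h :=
  ⟨tv hh hu, Subgroup.subset_closure (tv_mem_Tvs hh hu)⟩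

theorem isom (hh : Herm h) {g : V ≃ₗ[K] V} (hg : g ∈ Gr h) (x y : V) :
    h (g x) (g y) = h x y := by
  have key : ∀ x y, h (g x) (g y) = h x y := by
    unfold Gr at hg
    induction hg using Subgroup.closure_induction with
    | mem g hg =>
      obtain ⟨u, hu0, hu, hgx⟩ := hg
      intro x y
      rw [hgx, hgx]
      exact h_act hh ⟨hu0, hu⟩ x y
    | one => intro x y; rfl
    | mul a b _ _ ha hb => intro x y; exact (ha _ _).trans (hb _ _)
    | inv a _ ha =>
      intro x y
      have e : ∀ z, a (a⁻¹ z) = z := fun z => a.apply_symm_apply z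
      have h1 := ha (a⁻¹ x) (a⁻¹ y)
      rw [e, e] at h1
      exact h1.symm
  exact key x y

theorem center_iff (hh : Herm h) (g : Gr h) :
    g ∈ Subgroup.center (Gr h) ↔ ∀ u, Iso h u → Eqv K u ((g : V ≃ₗ[K] V) u) := by
  have hiso : ∀ u, Iso h u → Iso h ((g : V ≃ₗ[K] V) u) := by
    intro u hu
    refine ⟨fun h0 => hu.1 ?_, by rw [isom hh g.2, hu.2]⟩
    exact (LinearEquiv.map_eq_zero_iff _).1 h0
  have hc : ∀ u (hu : Iso h u), ((g : V ≃ₗ[K] V) * tv hh hu = tv hh hu * (g : V ≃ₗ[K] V) ↔
      Eqv K u ((g : V ≃ₗ[K] V) u)) := by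
    intro u hu
    rw [← tv_eq_iff hh hu (hiso u hu), ← tv_conj hh hu _ (isom hh g.2) (hiso u hu),
      eq_mul_inv_iff_mul_eq, eq_comm]
  constructor
  · intro hg u hu
    rw [← hc u hu]
    have h1 := Subgroup.mem_center_iff.1 hg (tg hh hu)
    exact (congrArg Subtype.val h1).symm
  · intro hg
    rw [Subgroup.mem_center_iff]
    have h1 : Gr h ≤ Subgroup.centralizer {(g : V ≃ₗ[K] V)} := by
      refine (Subgroup.closure_le _).2 ?_
      rintro t ⟨u, hu0, hu, htx⟩
      have ht : t = tv hh (u := u) ⟨hu0, hu⟩ := by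
        ext x
        exact htx x
      have h2 := (hc u ⟨hu0, hu⟩).2 (hg u ⟨hu0, hu⟩)
      rw [SetLike.mem_coe, Subgroup.mem_centralizer_singleton_iff, ht]
      first
        | exact h2
        | exact h2.symm
    intro x
    have h3 := h1 x.2
    rw [Subgroup.mem_centralizer_singleton_iff] at h3
    apply Subtype.ext
    first
      | exact h3
      | exact h3.symm

theorem center_one (hh : Herm h) (hstar : ∃ x : K, star x ≠ x)
    (hdim : 3 ≤ Module.finrank K V) {g : Gr h} (hg : g ∈ Subgroup.center (Gr h)) {w : V}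
    (hw : w ≠ 0) (hgw : (g : V ≃ₗ[K] V) w = w) : g = 1 := by
  obtain ⟨m, -, hm⟩ := scalar hh hstar hdim (g : V ≃ₗ[K] V) (isom hh g.2) ((center_iff hh g).1 hg)
  have h1 : m = 1 := by
    have h2 := hm w
    rw [hgw] at h2
    have h3 : (m - 1) • w = 0 := by rw [sub_smul, one_smul, ← h2, sub_self]
    rcases smul_eq_zero.1 h3 with h4 | h4
    · exact sub_eq_zero.1 h4
    · exact absurd h4 hw
  apply Subtype.ext
  ext x
  rw [hm, h1, one_smul]
  rfl

theorem order_mk (hh : Herm h) (hstar : ∃ x : K, star x ≠ x) (hdim : 3 ≤ Module.finrank K V)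
    {u v : V} (hu : Iso h u) (hv : Iso h v) :
    orderOf ((tg hh hu : Gr h ⧸ Subgroup.center (Gr h)) * (tg hh hv : Gr h ⧸ Subgroup.center (Gr h)))
      = orderOf (tv hh hu * tv hh hv) := by
  obtain ⟨w, hw, hwu, hwv⟩ := exists_perp hh hdim u v
  have hfix : (tv hh hu * tv hh hv) w = w := by
    have e1 : act h v w = w := by rw [act, hwv, zero_smul, add_zero]
    have e2 : act h u w = w := by rw [act, hwu, zero_smul, add_zero]
    rw [LinearEquiv.mul_apply, tv_apply, tv_apply, e1, e2]
  have hfixn : ∀ n : ℕ, ((tv hh hu * tv hh hv) ^ n) w = w := by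
    intro n
    induction n with
    | zero => rfl
    | succ n ih => rw [pow_succ, LinearEquiv.mul_apply, hfix, ih]
  have hval : ∀ n : ℕ, (((tg hh hu * tg hh hv) ^ n : Gr h) : V ≃ₗ[K] V) =
      (tv hh hu * tv hh hv) ^ n := by
    intro n
    rw [SubmonoidClass.coe_pow]
    rfl
  rw [orderOf_eq_orderOf_iff]
  intro n
  rw [← QuotientGroup.mk_mul, ← QuotientGroup.mk_pow, QuotientGroup.eq_one_iff]
  constructor
  · intro h1
    have h2 : (((tg hh hu * tg hh hv) ^ n : Gr h) : V ≃ₗ[K] V) w = w := by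
      rw [hval]
      exact hfixn n
    have h3 := center_one hh hstar hdim h1 hw h2
    rw [← hval, h3]
    rfl
  · intro h1
    have h2 : (tg hh hu * tg hh hv) ^ n = 1 := by
      apply Subtype.ext
      rw [hval, h1]
      rfl
    rw [h2]
    exact Subgroup.one_mem _

theorem conj_mk (hh : Herm h) (hstar : ∃ x : K, star x ≠ x) {u v : V} (hu : Iso h u)
    (hv : Iso h v) : IsConj (tg hh hu : Gr h ⧸ Subgroup.center (Gr h))
      (tg hh hv : Gr h ⧸ Subgroup.center (Gr h)) := by
  have key : ∀ {a b : V} (ha : Iso h a) (hb : Iso h b), nm (h a b) = 1 →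
      IsConj (tg hh ha) (tg hh hb) := by
    intro a b ha hb hab
    have h3 := (order_three hh ha hb).2 hab
    have h4 : (tv hh ha * tv hh hb) ^ 3 = 1 := by
      rw [← h3]
      exact pow_orderOf_eq_one _
    rw [isConj_iff]
    refine ⟨tg hh ha * tg hh hb, ?_⟩
    apply Subtype.ext
    show tv hh ha * tv hh hb * tv hh ha * (tv hh ha * tv hh hb)⁻¹ = tv hh hb
    rw [mul_inv_eq_iff_eq_mul, ← mul_right_inj (tv hh hb)⁻¹]
    have h5 : (tv hh ha * tv hh hb) ^ 3 = tv hh ha * tv hh hb * tv hh ha * (tv hh hb * tv hh ha *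
        tv hh hb) := by
      rw [pow_succ, pow_two]
      simp only [mul_assoc]
    have ia := inv_tv81 hh ha
    have ib := inv_tv81 hh hb
    rw [h5, mul_eq_one_iff_eq_inv, mul_inv_rev, mul_inv_rev, ia, ib, ← mul_assoc] at h4
    rw [h4, inv_mul_cancel_left, ib, ← mul_assoc, ← mul_assoc, tv_mul_self, one_mul]
  obtain ⟨x, y, z, hx, hy, hz, h1, h2, h3, h4⟩ := connected hh hstar hu hv
  have h5 : IsConj (tg hh hu) (tg hh hv) :=
    (((key hu hx h1).trans (key hx hy h2)).trans (key hy hz h3)).trans (key hz hv h4)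
  exact MonoidHom.map_isConj (QuotientGroup.mk' (Subgroup.center (Gr h))) h5

theorem mk_eq_iff (hh : Herm h) (hstar : ∃ x : K, star x ≠ x) (hdim : 3 ≤ Module.finrank K V)
    {u v : V} (hu : Iso h u) (hv : Iso h v) :
    (tg hh hu : Gr h ⧸ Subgroup.center (Gr h)) = (tg hh hv : Gr h ⧸ Subgroup.center (Gr h)) ↔
      Eqv K u v := by
  rw [← tv_eq_iff hh hu hv]
  constructor
  · intro h1
    obtain ⟨w, hw, hwu, hwv⟩ := exists_perp hh hdim u v
    have h2 := QuotientGroup.eq.1 h1
    have h3 : (((tg hh hu)⁻¹ * tg hh hv : Gr h) : V ≃ₗ[K] V) w = w := by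
      show ((tv hh hu)⁻¹ * tv hh hv) w = w
      have e1 : act h v w = w := by rw [act, hwv, zero_smul, add_zero]
      have e2 : act h u w = w := by rw [act, hwu, zero_smul, add_zero]
      rw [inv_tv81, LinearEquiv.mul_apply, tv_apply, tv_apply, e1, e2]
    have h4 := center_one hh hstar hdim h2 hw h3
    exact congrArg Subtype.val (inv_mul_eq_one.1 h4)
  · intro h1
    have h2 : tg hh hu = tg hh hv := Subtype.ext h1
    rw [h2]

end Pool.Agent.Helper81.UT
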