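import Pool.Agent.Helper81.UT.Core
import Pool.Agent.Helper81.UT.Quo
import Pool.Agent.Helper2.RO.Ext

/-!
# Block UT-FI: the final theorem
-/

set_option autoImplicit false

namespace Pool.Agent.Helper81.UT

section aux

variable {K V : Type*} [Field K] [Finite K] [CharP K 2] [StarRing K] [AddCommGroup V] [Module K V]
  [FiniteDimensional K V] {h : V → V → K}

theorem iso_map81 (hh : Herm h) (g : Gr h) {u : V} (hu : Iso h u) :
    Iso h ((g : V ≃ₗ[K] V) u) := by
  refine ⟨?_, by rw [isom hh g.2, hu.2]⟩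
  simpa using hu.1

theorem conj_tg81 (hh : Herm h) (g : Gr h) {u : V} (hu : Iso h u) :
    g * tg hh hu * g⁻¹ = tg hh (iso_map81 hh g hu) :=
  Subtype.ext (tv_conj hh hu (g : V ≃ₗ[K] V) (isom hh g.2) (iso_map81 hh g hu))

end aux

/-- Block UT-FI. `D` is the set of the classes of the `tg hh hu`. Choose for each `a ∈ D` an isotropic `v a`
whose class is `a`. Put `T u = v (τ [tg hh hu])`, `T' u = v (τ⁻¹ [tg hh hu])` for isotropic `u` (`T u = u`
otherwise). `LT h T T'`: `mk_eq_iff`, `order_mk`, `order_two`, `order_three` and the hypotheses on `τ` (for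
classes which are equal: `h u v = 0` and `h (T u) (T v) = 0`). `core` gives: `τ` respects conjugation
(`tv_conj` for `g = tv hh hu`). Then `Pool.Agent.Helper2.RO.extend` with `ρ` the inclusion of `D`: closed under
conjugation (`isom`, `tv_conj`), generation (closure of the image), faithfulness (`center_iff`). -/
theorem final {K V : Type*} [Field K] [Finite K] [CharP K 2] [StarRing K]
    (hstar : ∃ x : K, star x ≠ x) [AddCommGroup V] [Module K V] [FiniteDimensional K V]
    (h : V → V → K) (hh : Herm h) (hdim : 3 ≤ Module.finrank K V)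
    (hF : Module.finrank K V = 3 → ∃ b : K, star b = b ∧ b ≠ 0 ∧ b ≠ 1)
    (D : Set (Gr h ⧸ Subgroup.center (Gr h)))
    (hD : ∀ a, a ∈ D ↔ ∃ g : Gr h, (g : V ≃ₗ[K] V) ∈ Tvs h ∧ (g : Gr h ⧸ Subgroup.center (Gr h)) = a)
    (τ : Equiv.Perm D)
    (hτ : ∀ a b : D, a ≠ b →
      (orderOf ((τ a : Gr h ⧸ Subgroup.center (Gr h)) * τ b) = 2 ↔
        orderOf ((a : Gr h ⧸ Subgroup.center (Gr h)) * b) = 2) ∧
      (orderOf ((τ a : Gr h ⧸ Subgroup.center (Gr h)) * τ b) = 3 ↔
        orderOf ((a : Gr h ⧸ Subgroup.center (Gr h)) * b) = 3)) :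
    (∀ a ∈ D, orderOf a = 2) ∧ (∀ a ∈ D, ∀ b, b ∈ D ↔ IsConj a b) ∧
    ∃ φ : (Gr h ⧸ Subgroup.center (Gr h)) ≃* (Gr h ⧸ Subgroup.center (Gr h)), φ '' D = D ∧
      ∀ a : D, φ (a : Gr h ⧸ Subgroup.center (Gr h)) = τ a := by
  classical
  have hVfin : Finite V := Module.finite_of_finite K
  have hEfin : Finite (V ≃ₗ[K] V) :=
    Finite.of_injective (fun g : V ≃ₗ[K] V => (g : V → V)) DFunLike.coe_injective
  have hmem : ∀ {u : V} (hu : Iso h u), (tg hh hu : Gr h ⧸ Subgroup.center (Gr h)) ∈ D :=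
    fun {u} hu => (hD _).2 ⟨tg hh hu, tv_mem_Tvs hh hu, rfl⟩
  have hex : ∀ a : D, ∃ u : V, ∃ hu : Iso h u, (tg hh hu : Gr h ⧸ Subgroup.center (Gr h)) = a := by
    rintro ⟨a, ha⟩
    obtain ⟨g, ⟨u, hu1, hu2, hgu⟩, hga⟩ := (hD a).1 ha
    have hg : g = tg hh ⟨hu1, hu2⟩ := Subtype.ext (LinearEquiv.ext hgu)
    exact ⟨u, ⟨hu1, hu2⟩, by rw [← hg]; exact hga⟩
  choose v hv hva using hex
  let c : ∀ {u : V}, Iso h u → D := fun {u} hu => ⟨_, hmem hu⟩
  have hc : ∀ {u w : V} (hu : Iso h u) (hw : Iso h w), c hu = c hw ↔ Eqv K u w := by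
    intro u w hu hw
    rw [← mk_eq_iff hh hstar hdim hu hw]
    exact Subtype.ext_iff
  have hcv : ∀ a : D, c (hv a) = a := fun a => Subtype.ext (hva a)
  let T : V → V := fun u => if hu : Iso h u then v (τ (c hu)) else u
  let T' : V → V := fun u => if hu : Iso h u then v (τ.symm (c hu)) else u
  have hT : ∀ {u : V} (hu : Iso h u), T u = v (τ (c hu)) := fun {u} hu => dif_pos hu
  have hT' : ∀ {u : V} (hu : Iso h u), T' u = v (τ.symm (c hu)) := fun {u} hu => dif_pos hu
  have hTi : ∀ {u : V}, Iso h u → Iso h (T u) := fun {u} hu => by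
    rw [hT hu]
    exact hv _
  have hTi' : ∀ {u : V}, Iso h u → Iso h (T' u) := fun {u} hu => by
    rw [hT' hu]
    exact hv _
  have hcT : ∀ {u : V} (hu : Iso h u), c (hTi hu) = τ (c hu) := by
    intro u hu
    rw [← hcv (τ (c hu)), hc (hTi hu) (hv _), hT hu]
    exact Eqv.refl _
  have hcT' : ∀ {u : V} (hu : Iso h u), c (hTi' hu) = τ.symm (c hu) := by
    intro u hu
    rw [← hcv (τ.symm (c hu)), hc (hTi' hu) (hv _), hT' hu]
    exact Eqv.refl _
  have hord : ∀ {u w : V} (hu : Iso h u) (hw : Iso h w),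
      orderOf ((c hu : Gr h ⧸ Subgroup.center (Gr h)) * (c hw : Gr h ⧸ Subgroup.center (Gr h))) =
        orderOf (tv hh hu * tv hh hw) := fun {u w} hu hw => order_mk hh hstar hdim hu hw
  have heqv : ∀ u w, Iso h u → Iso h w → (Eqv K (T u) (T w) ↔ Eqv K u w) := by
    intro u w hu hw
    rw [← hc (hTi hu) (hTi hw), hcT hu, hcT hw, τ.apply_eq_iff_eq, hc hu hw]
  have hzero : ∀ {u w : V}, Iso h u → Eqv K u w → h u w = 0 := by
    intro u w hu e
    exact (hh.zero_congr (Eqv.refl u) e).2 hu.2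
  have hLT : LT h T T' :=
    { iso := fun u hu => hTi hu
      iso' := fun u hu => hTi' hu
      eqv := heqv
      left := by
        intro u hu
        rw [← hc (hTi' (hTi hu)) hu, hcT' (hTi hu), hcT hu, Equiv.symm_apply_apply]
      right := by
        intro u hu
        rw [← hc (hTi (hTi' hu)) hu, hcT (hTi' hu), hcT' hu, Equiv.apply_symm_apply]
      perp := by
        intro u w hu hw
        by_cases e : Eqv K u w
        · rw [hzero hu e, hzero (hTi hu) ((heqv u w hu hw).2 e)]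
        · have e' : ¬ Eqv K (T u) (T w) := fun he => e ((heqv u w hu hw).1 he)
          rw [← order_two hh (hTi hu) (hTi hw) e', ← order_two hh hu hw e, ← hord (hTi hu) (hTi hw),
            ← hord hu hw, hcT hu, hcT hw]
          exact (hτ (c hu) (c hw) fun h1 => e ((hc hu hw).1 h1)).1
      one := by
        intro u w hu hw
        by_cases e : Eqv K u w
        · rw [hzero hu e, hzero (hTi hu) ((heqv u w hu hw).2 e)]
        · rw [← order_three hh (hTi hu) (hTi hw), ← order_three hh hu hw, ← hord (hTi hu) (hTi hw),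
            ← hord hu hw, hcT hu, hcT hw]
          exact (hτ (c hu) (c hw) fun h1 => e ((hc hu hw).1 h1)).2 }
  have hcore : ∀ {u w : V} (hu : Iso h u) (hw : Iso h w),
      Eqv K (T (act h u w)) (act h (T u) (T w)) :=
    fun {u w} hu hw => core hh hstar hdim hF hLT hu hw
  have hcj : ∀ {u w : V} (hu : Iso h u) (hw : Iso h w),
      (c hu : Gr h ⧸ Subgroup.center (Gr h)) * c hw * (c hu : Gr h ⧸ Subgroup.center (Gr h))⁻¹ =
        c (act_iso hh hu hw) := by
    intro u w hu hw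
    have h1 := conj_tg81 hh (tg hh hu) hw
    have h2 := congrArg (fun g : Gr h => (g : Gr h ⧸ Subgroup.center (Gr h))) h1
    exact h2
  have hclosed : ∀ g : Gr h ⧸ Subgroup.center (Gr h), ∀ x : D, ∃ y : D, g * x * g⁻¹ = y := by
    intro g x
    obtain ⟨g, rfl⟩ := QuotientGroup.mk_surjective g
    refine ⟨c (iso_map81 hh g (hv x)), ?_⟩
    rw [← hva x]
    exact congrArg (fun g : Gr h => (g : Gr h ⧸ Subgroup.center (Gr h))) (conj_tg81 hh g (hv x))
  have hgen : Subgroup.closure (Set.range fun x : D => (x : Gr h ⧸ Subgroup.center (Gr h))) = ⊤ := by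
    rw [eq_top_iff]
    intro g _
    obtain ⟨⟨g, hg⟩, rfl⟩ := QuotientGroup.mk_surjective g
    have key : ∀ (x : V ≃ₗ[K] V) (hx : x ∈ Subgroup.closure (Tvs h)),
        ((⟨x, hx⟩ : Gr h) : Gr h ⧸ Subgroup.center (Gr h)) ∈
          Subgroup.closure (Set.range fun x : D => (x : Gr h ⧸ Subgroup.center (Gr h))) := by
      intro x hx
      induction hx using Subgroup.closure_induction with
      | mem x hx =>
        refine Subgroup.subset_closure ⟨⟨_, (hD _).2 ⟨⟨x, Subgroup.subset_closure hx⟩, hx, rfl⟩⟩, rfl⟩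
      | one => exact Subgroup.one_mem _
      | mul x y hx hy h1 h2 => exact Subgroup.mul_mem _ h1 h2
      | inv x hx h1 => exact Subgroup.inv_mem _ h1
    exact key g hg
  have hfaith : ∀ g : Gr h ⧸ Subgroup.center (Gr h),
      (∀ x : D, g * x * g⁻¹ = (x : Gr h ⧸ Subgroup.center (Gr h))) → g = 1 := by
    intro g hg
    obtain ⟨g, rfl⟩ := QuotientGroup.mk_surjective g
    rw [QuotientGroup.eq_one_iff, center_iff hh]
    intro u hu
    have h1 := hg (c hu)
    have h2 := congrArg (fun g : Gr h => (g : Gr h ⧸ Subgroup.center (Gr h))) (conj_tg81 hh g hu)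
    have h3 : (tg hh hu : Gr h ⧸ Subgroup.center (Gr h)) =
        (tg hh (iso_map81 hh g hu) : Gr h ⧸ Subgroup.center (Gr h)) := h1.symm.trans h2
    exact (mk_eq_iff hh hstar hdim hu (iso_map81 hh g hu)).1 h3
  obtain ⟨φ, hφ⟩ := Pool.Agent.Helper2.RO.extend
    (fun x : D => (x : Gr h ⧸ Subgroup.center (Gr h))) Subtype.val_injective hclosed hgen hfaith τ
    (by
      intro x y z hxyz
      have hz : z = c (act_iso hh (hv x) (hv y)) := by
        apply Subtype.ext
        rw [← hxyz, ← hcj (hv x) (hv y), hcv, hcv]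
      show (τ x : Gr h ⧸ Subgroup.center (Gr h)) * τ y * (τ x : Gr h ⧸ Subgroup.center (Gr h))⁻¹ = τ z
      have h1 : τ z = c (act_iso hh (hTi (hv x)) (hTi (hv y))) := by
        rw [hz, ← hcT (act_iso hh (hv x) (hv y)), hc (hTi (act_iso hh (hv x) (hv y)))
          (act_iso hh (hTi (hv x)) (hTi (hv y)))]
        exact hcore (hv x) (hv y)
      rw [h1, ← hcj (hTi (hv x)) (hTi (hv y)), hcT (hv x), hcT (hv y), hcv, hcv])
  refine ⟨?_, ?_, φ, ?_, hφ⟩
  · intro a ha
    obtain ⟨u, hu, rfl⟩ : ∃ u, ∃ hu : Iso h u, (tg hh hu : Gr h ⧸ Subgroup.center (Gr h)) = a :=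
      ⟨v ⟨a, ha⟩, hv ⟨a, ha⟩, hva ⟨a, ha⟩⟩
    rw [orderOf_eq_prime_iff, pow_two]
    constructor
    · have h1 : tg hh hu * tg hh hu = 1 := Subtype.ext (tv_mul_self hh hu)
      exact congrArg (fun g : Gr h => (g : Gr h ⧸ Subgroup.center (Gr h))) h1
    · rw [Ne, QuotientGroup.eq_one_iff]
      intro h1
      have h2 : tg hh hu = 1 := center_one hh hstar hdim h1 hu.1 (by
        show act h u u = u
        rw [act, hu.2, zero_smul, add_zero])
      exact tv_ne_one hh hu (congrArg Subtype.val h2)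
  · intro a ha b
    constructor
    · intro hb
      rw [show a = (c (hv ⟨a, ha⟩) : Gr h ⧸ Subgroup.center (Gr h)) from (hva ⟨a, ha⟩).symm,
        show b = (c (hv ⟨b, hb⟩) : Gr h ⧸ Subgroup.center (Gr h)) from (hva ⟨b, hb⟩).symm]
      exact conj_mk hh hstar (hv ⟨a, ha⟩) (hv ⟨b, hb⟩)
    · intro hab
      obtain ⟨g, rfl⟩ := isConj_iff.1 hab
      obtain ⟨y, hy⟩ := hclosed g ⟨a, ha⟩
      rw [show g * a * g⁻¹ = (y : Gr h ⧸ Subgroup.center (Gr h)) from hy]
      exact y.2
  · ext x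
    constructor
    · rintro ⟨a, ha, rfl⟩
      have h1 := hφ ⟨a, ha⟩
      show φ a ∈ D
      rw [show φ a = (τ ⟨a, ha⟩ : Gr h ⧸ Subgroup.center (Gr h)) from h1]
      exact (τ ⟨a, ha⟩).2
    · intro hx
      refine ⟨τ.symm ⟨x, hx⟩, (τ.symm ⟨x, hx⟩).2, ?_⟩
      have h1 := hφ (τ.symm ⟨x, hx⟩)
      rw [Equiv.apply_symm_apply] at h1
      exact h1

end Pool.Agent.Helper81.UT
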