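import Pool.Agent.Helper81.UT.Fld

/-!
# Block UT-CE: an isotropic vector with given products

Let `t = trc g ≠ 0`, `p = a`, `q = b g star X`, `r = c g² star X star Y` (`nm p = a²`, `nm q = b²`,
`nm r = c²`), `s₁ = (p + star g q + r) / t`, `s₂ = (g p + q + star g r) / t`, `s₃ = (p + g q + r) / t` and
`s = s₁ u + s₂ v + s₃ x`. With `g * star g = 1` and characteristic two: `h s u = s₂ + star g s₃ = p`,
`h s v = s₁ + s₃ = q`, `h s x = g s₁ + s₂ = r`, and
`t h s s = nm p + nm q + nm r + trc (g p star q) + trc (g q star r) + trc (p star r)`, where the three traces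
are `a b trc X`, `b c trc Y`, `a c trc (star (g²) X Y)`.
-/

set_option autoImplicit false

namespace Pool.Agent.Helper81.UT

variable {K V : Type*} [Field K] [Finite K] [CharP K 2] [StarRing K] [AddCommGroup V] [Module K V]
  {h : V → V → K}

theorem cell (hh : Herm h) {u v x : V} (hu : Iso h u) (hv : Iso h v) (hx : Iso h x)
    (huv : h u v = 1) (hvx : h v x = 1) {g : K} (hux : h u x = g) (hg : nm g = 1)
    (hgt : trc g ≠ 0) {a b c X Y : K} (ha : star a = a) (hb : star b = b) (hc : star c = c)
    (ha0 : a ≠ 0) (hX : nm X = 1) (hY : nm Y = 1)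
    (H : a * a + b * b + c * c + a * b * trc X + trc (c * (b + a * star (g * g) * X) * Y) = 0) :
    ∃ s, Iso h s ∧ nm (h s u) = a * a ∧ nm (h s v) = b * b ∧ nm (h s x) = c * c := by
  have h2 : (2 : K) = 0 := CharTwo.two_eq_zero
  have hvu : h v u = 1 := by rw [← hh.symm, huv, star_one]
  have hxv : h x v = 1 := by rw [← hh.symm, hvx, star_one]
  have hxu : h x u = star g := by rw [← hh.symm, hux]
  have hg1 : g * star g = 1 := hg
  have hX1 : X * star X = 1 := hX
  have hY1 : Y * star Y = 1 := hY
  have ht : g + star g ≠ 0 := hgt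
  simp only [trc, star_add, star_mul, star_star, ha, hb, hc] at H
  obtain ⟨T, hT⟩ : ∃ T : K, T = (g + star g)⁻¹ := ⟨_, rfl⟩
  have hT1 : T * (g + star g) = 1 := by rw [hT, inv_mul_cancel₀ ht]
  have hTs : star T = T := by
    rw [hT, star_inv₀, star_add, star_star, add_comm]
  obtain ⟨q, hq⟩ : ∃ q : K, q = b * g * star X := ⟨_, rfl⟩
  obtain ⟨r, hr⟩ : ∃ r : K, r = c * (g * g) * star X * star Y := ⟨_, rfl⟩
  have hqs : star q = b * star g * X := by
    rw [hq, star_mul, star_mul, star_star, hb]; ring
  have hrs : star r = c * (star g * star g) * X * Y := by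
    rw [hr, star_mul, star_mul, star_mul, star_mul, star_star, star_star, hc]; ring
  obtain ⟨s, hs⟩ : ∃ s : V, s = (T * (a + star g * q + r)) • u + (T * (g * a + q + star g * r)) • v
      + (T * (a + g * q + r)) • x := ⟨_, rfl⟩
  have hsu : h s u = a := by
    rw [hs, hh.add, hh.add, hh.smul, hh.smul, hh.smul, hu.2, hvu, hxu]
    linear_combination a * hT1 + T * q * hg1 + (T * q + T * star g * r) * h2
  have hsv : h s v = q := by
    rw [hs, hh.add, hh.add, hh.smul, hh.smul, hh.smul, hv.2, huv, hxv]
    linear_combination q * hT1 + T * (a + r) * h2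
  have hsx : h s x = r := by
    rw [hs, hh.add, hh.add, hh.smul, hh.smul, hh.smul, hx.2, hux, hvx]
    linear_combination r * hT1 + T * q * hg1 + (T * q + T * g * a) * h2
  refine ⟨s, ⟨?_, ?_⟩, ?_, ?_, ?_⟩
  · intro h0
    rw [h0, hh.zero_left] at hsu
    exact ha0 hsu.symm
  · have e : h s s = star (T * (a + star g * q + r)) * h s u
        + star (T * (g * a + q + star g * r)) * h s v + star (T * (a + g * q + r)) * h s x := by
      conv_lhs => rw [hs]
      rw [← hs, ← hh.smul_right, ← hh.smul_right, ← hh.smul_right, ← hh.add_right,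
        ← hh.add_right, ← hs]
    rw [e, hsu, hsv, hsx]
    simp only [star_add, star_mul, star_star, ha, hTs, hqs, hrs]
    rw [hq, hr]
    linear_combination T * H + T * (a * b * X + a * b * star X + b * b * X * star X
      + b * c * Y * (X * star X) * (g * star g + 1) + b * c * star Y * (X * star X) * (g * star g + 1)
      + c * c * (X * star X) * (Y * star Y) * (g * star g + 1)) * hg1
      + T * (b * b + b * c * Y + b * c * star Y + c * c * (Y * star Y)) * hX1 + T * (c * c) * hY1
  · rw [hsu, nm, ha]
  · rw [hsv, nm, hqs, hq]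
    linear_combination b * b * X * star X * hg1 + b * b * hX1
  · rw [hsx, nm, hrs, hr]
    linear_combination c * c * (X * star X) * (Y * star Y) * (g * star g + 1) * hg1
      + c * c * (Y * star Y) * hX1 + c * c * hY1

end Pool.Agent.Helper81.UT
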