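import Pool.Agent.Helper81.UT.Fld

/-!
# Block UT-FB: elements with given trace and norm

`F` is the set of the `x` with `star x = x`, `AS K = {x² + x : x ∈ F}`, an additive subgroup of `F`.
`not_as_add`: the map `x ↦ x² + x` of `F` is additive with kernel `{0, 1}`, so `AS K` has index two in `F`
(count: the fibres of the map have two elements; `Subgroup.index_eq_two_iff` type argument, or: the
fibre sizes give `2 #AS = #F`, and if `r, s, r + s ∉ AS` then `AS`, `r + AS`, `s + AS` would be disjoint).
`sol_iff`: if `trc z = S ≠ 0`, `nm z = M` then `y = z / S` has `y² + y = M / S²` and `y ∉ F`; if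
`M / S² = x² + x` with `x ∈ F` then `(x + y)² = x + y`, so `y ∈ F`. Conversely let `trc y₀ = 1` (`trc_surj`),
`r₀ = nm y₀ = y₀² + y₀`, `r₀ ∉ AS` by the first part. If `M / S² ∉ AS` then `M / S² + r₀ = x² + x`, `x ∈ F`
(`not_as_add`), and `z = S (y₀ + x)` has trace `S` and norm `S² (r₀ + x + x²) = M`.
`exists_not_as`: `r₀`. `exists_forms`: if `l = 0` take `w = r₀ / k`. Otherwise suppose `l w ∈ AS` implies
`k w ∈ AS` for all `w ∈ F`. Then (index two: take `w₀` with `l w₀ ∉ AS`, if `k w₀ ∈ AS` then all `k w ∈ AS`,
impossible) also conversely, so `(k + l) w ∈ AS` for all `w ∈ F`, hence `AS = F`, a contradiction.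
`sq_mem_as`: `r² + r ∈ AS`. `sol_zero`: a square root of `M`.
-/

set_option autoImplicit false

namespace Pool.Agent.Helper81.UT

variable {K : Type*} [Field K] [Finite K] [CharP K 2] [StarRing K]

variable (K) in
/-- The elements `x² + x`, `x` fixed by `star`. -/
def AS : Set K := {r | ∃ x : K, star x = x ∧ x * x + x = r}

theorem as_add {r s : K} (hr : r ∈ AS K) (hs : s ∈ AS K) : r + s ∈ AS K := by
  obtain ⟨x, hx, rfl⟩ := hr
  obtain ⟨y, hy, rfl⟩ := hs
  refine ⟨x + y, by rw [star_add, hx, hy], ?_⟩
  have h2 : (2 : K) = 0 := CharTwo.two_eq_zero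
  linear_combination (x * y) * h2

variable (K) in
/-- The additive group of the fixed elements. -/
def fixSub : AddSubgroup K where
  carrier := {x | star x = x}
  zero_mem' := star_zero K
  add_mem' := by
    intro a b ha hb
    change star (a + b) = a + b
    rw [star_add, show star a = a from ha, show star b = b from hb]
  neg_mem' := by
    intro a ha
    change star (-a) = -a
    rw [star_neg, show star a = a from ha]

theorem mem_fixSub {x : K} : x ∈ fixSub K ↔ star x = x := Iff.rfl

variable (K) in
/-- The map `x ↦ x² + x` of the fixed elements. -/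
def asHom : fixSub K →+ fixSub K where
  toFun x := ⟨(x : K) * x + x, by
    have hx : star (x : K) = x := x.2
    rw [mem_fixSub, star_add, star_mul, hx]⟩
  map_zero' := by
    apply Subtype.ext
    simp
  map_add' := by
    intro x y
    apply Subtype.ext
    have h2 : (2 : K) = 0 := CharTwo.two_eq_zero
    change ((x : K) + y) * (x + y) + (x + y) = (x * x + x) + (y * y + y)
    linear_combination ((x : K) * y) * h2

theorem mul_self_add_self {x : K} (h : x * x + x = 0) : x = 0 ∨ x = 1 := by
  have h1 : x * (x + 1) = 0 := by linear_combination h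
  rcases mul_eq_zero.1 h1 with h2 | h2
  · exact Or.inl h2
  · right
    exact CharTwo.add_eq_zero.1 h2

theorem index_range : (asHom K).range.index = 2 := by
  have hker : Nat.card (asHom K).ker = 2 := by
    have h01 : (0 : fixSub K) ≠ ⟨1, star_one K⟩ := by
      intro h
      exact zero_ne_one (congrArg Subtype.val h)
    have hset : ((asHom K).ker : Set (fixSub K)) = {0, ⟨1, star_one K⟩} := by
      ext x
      simp only [SetLike.mem_coe, AddMonoidHom.mem_ker, Set.mem_insert_iff, Set.mem_singleton_iff]
      constructor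
      · intro h
        have h1 : (x : K) * x + x = 0 := congrArg Subtype.val h
        rcases mul_self_add_self h1 with h2 | h2
        · exact Or.inl (Subtype.ext h2)
        · exact Or.inr (Subtype.ext h2)
      · rintro (rfl | rfl)
        · exact map_zero _
        · apply Subtype.ext
          change (1 : K) * 1 + 1 = 0
          rw [mul_one]
          exact CharTwo.add_self_eq_zero 1
    have h2 := Set.ncard_pair h01
    rw [← hset] at h2
    rw [← h2]
    exact (Nat.card_coe_set_eq _)
  have h1 := AddSubgroup.card_mul_index (asHom K).ker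
  have h2 := AddSubgroup.card_mul_index (asHom K).range
  rw [AddSubgroup.index_ker, hker] at h1
  have h3 : 0 < Nat.card (asHom K).range := Nat.card_pos
  rw [← h1, mul_comm] at h2
  exact Nat.eq_of_mul_eq_mul_right h3 h2

theorem mem_range {r : K} (hr : star r = r) : (⟨r, hr⟩ : fixSub K) ∈ (asHom K).range ↔ r ∈ AS K := by
  constructor
  · rintro ⟨x, hx⟩
    exact ⟨x, x.2, congrArg Subtype.val hx⟩
  · rintro ⟨x, hx, h⟩
    exact ⟨⟨x, hx⟩, Subtype.ext h⟩

theorem add_mem_iff {r s : K} (hr : star r = r) (hs : star s = s) :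
    r + s ∈ AS K ↔ (r ∈ AS K ↔ s ∈ AS K) := by
  have h := AddSubgroup.add_mem_iff_of_index_two (index_range (K := K)) (a := ⟨r, hr⟩)
    (b := ⟨s, hs⟩)
  rw [mem_range hr, mem_range hs] at h
  rw [← h, ← mem_range (r := r + s) (by rw [star_add, hr, hs])]
  exact Iff.rfl

theorem not_as_add {r s : K} (hr : star r = r) (hs : star s = s) (h1 : r ∉ AS K)
    (h2 : s ∉ AS K) : r + s ∈ AS K := by
  rw [add_mem_iff hr hs]
  exact ⟨fun h => absurd h h1, fun h => absurd h h2⟩

theorem star_of_mem_as {r : K} (hr : r ∈ AS K) : star r = r := by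
  obtain ⟨x, hx, rfl⟩ := hr
  rw [star_add, star_mul, hx]

theorem sq_mem_as {r : K} (hr : star r = r) : r * r ∈ AS K ↔ r ∈ AS K := by
  have h0 : r * r + r ∈ AS K := ⟨r, hr, rfl⟩
  have hrr : star (r * r) = r * r := by rw [star_mul, hr]
  exact (add_mem_iff hrr hr).1 h0

theorem trace_one_not_as {y : K} (hy : trc y = 1) : star (nm y) = nm y ∧ nm y = y * y + y ∧
    nm y ∉ AS K := by
  have h2 : (2 : K) = 0 := CharTwo.two_eq_zero
  rw [trc] at hy
  have hs : star y = 1 + y := by linear_combination hy - y * h2
  have e : nm y = y * y + y := by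
    rw [nm, hs]
    ring
  refine ⟨?_, e, ?_⟩
  · rw [nm, star_mul, star_star]
  · rintro ⟨x, hx, h⟩
    rw [e] at h
    have h3 : (x + y) * (x + y) + (x + y) = 0 := by
      linear_combination h + (x * y + y * y + y) * h2
    have h4 : star (x + y) = x + y := by
      rcases mul_self_add_self h3 with h5 | h5
      · rw [h5, star_zero]
      · rw [h5, star_one]
    rw [star_add, hx] at h4
    have h5 : star y = y := add_left_cancel h4
    rw [h5, CharTwo.add_self_eq_zero] at hy
    exact zero_ne_one hy

theorem exists_not_as (hstar : ∃ x : K, star x ≠ x) : ∃ r : K, star r = r ∧ r ∉ AS K := by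
  obtain ⟨y, hy⟩ := trc_surj hstar (star_one K)
  obtain ⟨h1, -, h3⟩ := trace_one_not_as hy
  exact ⟨_, h1, h3⟩

theorem sol_zero {M : K} (hM : star M = M) : Sol 0 M := by
  obtain ⟨r, h1, h2⟩ := exists_sqrt hM
  exact ⟨r, by rw [trc, h1, CharTwo.add_self_eq_zero], by rw [nm, h1, h2]⟩

theorem sol_iff (hstar : ∃ x : K, star x ≠ x) {S M : K} (hS : star S = S) (hS0 : S ≠ 0)
    (hM : star M = M) : Sol S M ↔ M / (S * S) ∉ AS K := by
  have h2 : (2 : K) = 0 := CharTwo.two_eq_zero
  constructor
  · rintro ⟨z, hz, hn⟩
    have hy : trc (z / S) = 1 := by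
      rw [trc] at hz ⊢
      rw [star_div₀, hS, ← add_div, hz, div_self hS0]
    obtain ⟨-, -, h⟩ := trace_one_not_as hy
    have e : nm (z / S) = M / (S * S) := by
      rw [nm] at hn ⊢
      rw [star_div₀, hS, div_mul_div_comm, hn]
    rwa [e] at h
  · intro h
    obtain ⟨y, hy⟩ := trc_surj hstar (star_one K)
    obtain ⟨h1, h3, h4⟩ := trace_one_not_as hy
    have hMS : star (M / (S * S)) = M / (S * S) := by
      rw [star_div₀, star_mul, hS, hM]
    obtain ⟨x, hx, h5⟩ := not_as_add hMS h1 h h4
    rw [h3] at h5
    rw [trc] at hy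
    have hs : star y = 1 + y := by linear_combination hy - y * h2
    refine ⟨S * (y + x), ?_, ?_⟩
    · rw [trc, star_mul, star_add, hx, hS, hs]
      linear_combination (S * y + S * x) * h2
    · rw [nm, star_mul, star_add, hx, hS, hs]
      have e : M = (M / (S * S)) * (S * S) := by
        field_simp
      have h6 : M / (S * S) = x * x + x + (y * y + y) := by
        linear_combination (-1 : K) * h5 - (y * y + y) * h2
      rw [e, h6]
      linear_combination (S * S * (x * y)) * h2

theorem exists_forms (hstar : ∃ x : K, star x ≠ x) {k l : K} (hk : star k = k) (hl : star l = l)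
    (hk0 : k ≠ 0) (hkl : k ≠ l) : ∃ w : K, star w = w ∧ k * w ∉ AS K ∧ l * w ∈ AS K := by
  obtain ⟨r, hr, hra⟩ := exists_not_as hstar
  by_contra hcon
  push Not at hcon
  have hc : ∀ w : K, star w = w → l * w ∈ AS K → k * w ∈ AS K := by
    intro w hw h1
    by_contra h3
    exact hcon w hw h3 h1
  have hkw : ∀ w : K, star w = w → star (k * w) = k * w := by
    intro w hw
    rw [star_mul, hw, hk, mul_comm]
  have hlw : ∀ w : K, star w = w → star (l * w) = l * w := by
    intro w hw
    rw [star_mul, hw, hl, mul_comm]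
  -- the converse
  have hd : ∀ w : K, star w = w → k * w ∈ AS K → l * w ∈ AS K := by
    intro w hw h1
    by_contra h3
    have hall : ∀ v : K, star v = v → k * v ∈ AS K := by
      intro v hv
      by_cases h4 : l * v ∈ AS K
      · exact hc v hv h4
      · have h5 := not_as_add (hlw v hv) (hlw w hw) h4 h3
        rw [← mul_add] at h5
        have h6 := hc (v + w) (by rw [star_add, hv, hw]) h5
        rw [mul_add, add_mem_iff (hkw v hv) (hkw w hw)] at h6
        exact h6.2 h1
    have h7 := hall (r / k) (by rw [star_div₀, hr, hk])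
    rw [mul_div_cancel₀ r hk0] at h7
    exact hra h7
  have hkl0 : k + l ≠ 0 := fun h => hkl (CharTwo.add_eq_zero.1 h)
  have h8 : ∀ w : K, star w = w → (k + l) * w ∈ AS K := by
    intro w hw
    rw [add_mul, add_mem_iff (hkw w hw) (hlw w hw)]
    exact ⟨hd w hw, hc w hw⟩
  have h9 := h8 (r / (k + l)) (by rw [star_div₀, star_add, hr, hk, hl])
  rw [mul_div_cancel₀ r hkl0] at h9
  exact hra h9

end Pool.Agent.Helper81.UT
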