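import Pool.Agent.Helper81.UT.Cell
import Pool.Agent.Helper81.UT.Sol

/-!
# Block UT-NB: common neighbours, non collinear case

The hypotheses are those of `cell`. `nb_subset`: for `(a', b', c')` in `NB0` put `a, b, c` for the inverses,
`S = (a + b + c)² = a² + b² + c²`; let `trc z = S`, `nm z = (a b)²`, `X = z / (a b)`: `nm X = 1`,
`a b trc X = S`. With `E = c (b + a star (g²) X)` choose `Y`, `nm Y = 1`, `trc (E Y) = 0` (`Y = 1` if `E = 0`, else
`Y = r / E`, `r` the square root of `nm E`, so that `E Y = r` is fixed by `star`). Then the hypothesis `H` of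
`cell` holds.
`nb_ne`: `X = 1`. Let `a, b, c` be nonzero and fixed, `S = a² + b² + c² ≠ 0`, `n = nm (b + a star (g²)) =
a² + b² + a b t²` (`t = trc g`, `trc (g²) = t²`); `n ≠ 0` (otherwise `g²` is fixed of norm one, `g² = 1`,
`g = 1`, `t = 0`). If `Sol S (c² n)`, `z` with trace `S` and norm `c² n`, then `Y = z / (c (b + a star (g²)))` has
norm one and `H` holds: `(a⁻¹, b⁻¹, c⁻¹) ∈ NB`. It is not in `NB0` if `¬ Sol S ((a b)²)`. By `sol_iff`,
`sq_mem_as`: with `W = S⁻¹`, `e = a² + b²`, `c² = W⁻¹ + e`: the first says `c² n W² = n W + e n W² ∉ AS`, or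
(as `e n W²` and its square root `√(e n) W` are equivalent modulo `AS`) `(n + √(e n)) W ∉ AS`, the second
`a b W ∈ AS`.
Case `t ≠ 1`: `a = b = 1`, `e = 0`, `n = t²`: `exists_forms` with `k = t²`, `l = 1` gives `W` (`W ≠ 0`), `c` = square
root of `W⁻¹`. Case `t = 1`: `g² + g + 1 = 0` and `g` is not fixed, so no fixed element is a root of
`Z² + Z + 1` (the roots are `g` and `g + 1`). Let `a = 1`, `b = f²` with `f` fixed, `b ≠ 0, 1`: `n = 1 + b + b²
= (1 + f + f²)²`, `√(e n) = (1 + f²)(1 + f + f²)`, `n + √(e n) = f (1 + f + f²) =: k ≠ 0`, `k ≠ b = f²`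
(`k = f²` gives `1 + f² = 0`, `f = 1`). `exists_forms` with this `k` and `l = b` gives `W`; `c² = W⁻¹ + e` is not zero
because `W = e⁻¹` would give `k W = n / e + √(n / e) ∈ AS`.
-/

set_option autoImplicit false

namespace Pool.Agent.Helper81.UT

variable {K V : Type*} [Field K] [Finite K] [CharP K 2] [StarRing K] [AddCommGroup V] [Module K V]
  {h : V → V → K}

omit [Finite K] [CharP K 2] in
private theorem nm_fixed_h5 {a : K} (ha : star a = a) : nm a = a * a := by rw [nm, ha]

private theorem finish_h5 (hh : Herm h) {u v x : V} {a b c : K} (ha : star a = a) (hb : star b = b)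
    (hc : star c = c) (ha0 : a ≠ 0) (hb0 : b ≠ 0) (hc0 : c ≠ 0)
    (H : ∃ s, Iso h s ∧ nm (h s u) = a * a ∧ nm (h s v) = b * b ∧ nm (h s x) = c * c) :
    (a⁻¹, b⁻¹, c⁻¹) ∈ NB h u v x := by
  obtain ⟨s, hs, h1, h2, h3⟩ := H
  refine ⟨⟨by simp [star_inv₀, ha], inv_ne_zero ha0⟩, ⟨by simp [star_inv₀, hb], inv_ne_zero hb0⟩,
    ⟨by simp [star_inv₀, hc], inv_ne_zero hc0⟩, s, hs, ?_, ?_, ?_⟩
  · rw [hh.smul_right, nm_mul, nm_star, nm_inv, nm_fixed_h5 ha, h1]
    exact inv_mul_cancel₀ (mul_ne_zero ha0 ha0)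
  · rw [hh.smul_right, nm_mul, nm_star, nm_inv, nm_fixed_h5 hb, h2]
    exact inv_mul_cancel₀ (mul_ne_zero hb0 hb0)
  · rw [hh.smul_right, nm_mul, nm_star, nm_inv, nm_fixed_h5 hc, h3]
    exact inv_mul_cancel₀ (mul_ne_zero hc0 hc0)

theorem nb_subset (hh : Herm h) (hstar : ∃ x : K, star x ≠ x) {u v x : V} (hu : Iso h u)
    (hv : Iso h v) (hx : Iso h x) (huv : h u v = 1) (hvx : h v x = 1) {g : K} (hux : h u x = g)
    (hg : nm g = 1) (hgt : trc g ≠ 0) : NB0 K ⊆ NB h u v x := by
  rintro ⟨a', b', c'⟩ ⟨⟨ha', ha0'⟩, ⟨hb', hb0'⟩, ⟨hc', hc0'⟩, z, hz1, hz2⟩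
  simp only at ha' ha0' hb' hb0' hc' hc0' hz1 hz2
  have h2 : (2 : K) = 0 := CharTwo.two_eq_zero
  obtain ⟨a, ha⟩ : ∃ a, a = a'⁻¹ := ⟨_, rfl⟩
  obtain ⟨b, hb⟩ : ∃ b, b = b'⁻¹ := ⟨_, rfl⟩
  obtain ⟨c, hc⟩ : ∃ c, c = c'⁻¹ := ⟨_, rfl⟩
  rw [← ha, ← hb] at hz2
  rw [← ha, ← hb, ← hc] at hz1
  have ha0 : a ≠ 0 := by rw [ha]; exact inv_ne_zero ha0'
  have hb0 : b ≠ 0 := by rw [hb]; exact inv_ne_zero hb0'
  have hc0 : c ≠ 0 := by rw [hc]; exact inv_ne_zero hc0'
  have has : star a = a := by rw [ha, star_inv₀, ha']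
  have hbs : star b = b := by rw [hb, star_inv₀, hb']
  have hcs : star c = c := by rw [hc, star_inv₀, hc']
  have ea : a' = a⁻¹ := by rw [ha, inv_inv]
  have eb : b' = b⁻¹ := by rw [hb, inv_inv]
  have ec : c' = c⁻¹ := by rw [hc, inv_inv]
  rw [ea, eb, ec]
  have hab0 : a * b ≠ 0 := mul_ne_zero ha0 hb0
  have habs : star (a * b) = a * b := by rw [star_mul, has, hbs, mul_comm]
  refine finish_h5 hh has hbs hcs ha0 hb0 hc0 ?_
  -- the element `X`
  have hX : nm (z / (a * b)) = 1 := by
    rw [div_eq_mul_inv, nm_mul, nm_inv, hz2, nm_fixed_h5 habs]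
    field_simp
  have hXt : a * b * trc (z / (a * b)) = trc z := by
    rw [trc, trc, star_div₀, habs]
    field_simp
  -- the element `Y`
  obtain ⟨Y, hY, hY0⟩ : ∃ Y : K, nm Y = 1 ∧
      trc (c * (b + a * star (g * g) * (z / (a * b))) * Y) = 0 := by
    by_cases hE : c * (b + a * star (g * g) * (z / (a * b))) = 0
    · refine ⟨1, nm_one, ?_⟩
      rw [hE, zero_mul, trc, star_zero, add_zero]
    · obtain ⟨r, hr, hrr⟩ := exists_sqrt (star_nm (c * (b + a * star (g * g) * (z / (a * b)))))
      refine ⟨r / (c * (b + a * star (g * g) * (z / (a * b)))), ?_, ?_⟩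
      · rw [div_eq_mul_inv, nm_mul, nm_inv, nm_fixed_h5 hr, hrr]
        exact mul_inv_cancel₀ (fun h0 => hE (nm_eq_zero.1 h0))
      · rw [mul_div_cancel₀ _ hE, trc, hr]
        exact CharTwo.add_self_eq_zero r
  refine cell hh hu hv hx huv hvx hux hg hgt has hbs hcs ha0 hX hY ?_
  rw [hY0, hXt, hz1]
  linear_combination (a * a + b * b + c * c + a * b + a * c + b * c) * h2

/-- The norm `n` of `b + a star (g²)`. -/
private theorem nm_eq_h5 {g a b : K} (hg : nm g = 1) (ha : star a = a) (hb : star b = b) :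
    nm (b + a * star (g * g)) = a * a + b * b + a * b * (trc g * trc g) := by
  have h2 : (2 : K) = 0 := CharTwo.two_eq_zero
  rw [nm] at hg
  rw [nm, trc]
  simp only [star_mul, star_add, star_star, ha, hb]
  linear_combination (a * a * (g * star g + 1)) * hg - (a * b * (g * star g)) * h2

private theorem nm_ne_h5 {g a b : K} (hg : nm g = 1) (hgt : trc g ≠ 0) (ha : star a = a)
    (hb : star b = b) (ha0 : a ≠ 0) : nm (b + a * star (g * g)) ≠ 0 := by
  intro h0
  have h2 : (2 : K) = 0 := CharTwo.two_eq_zero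
  have h1 := nm_eq_zero.1 h0
  have h3 : star (g * g) = b / a := by
    rw [eq_div_iff ha0]
    linear_combination h1 - b * h2
  have h4 : star (star (g * g)) = star (g * g) := by
    rw [h3, star_div₀, ha, hb]
  have h5 : nm (star (g * g)) = 1 := by rw [nm_star, nm_mul, hg, one_mul]
  have h6 := fixed_norm_one h4 h5
  have h7 : g * g = 1 := by
    have := congrArg star h6
    rwa [star_star, star_one] at this
  have h8 : (g + 1) * (g + 1) = 0 := by linear_combination h7 + (1 + g) * h2
  have h9 : g + 1 = 0 := by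
    rcases mul_eq_zero.1 h8 with h | h <;> exact h
  have h10 : g = 1 := by linear_combination h9 - h2
  apply hgt
  rw [h10, trc, star_one]
  linear_combination h2

/-- The neighbour for `X = 1`. -/
private theorem mem_nb_h5 (hh : Herm h) {u v x : V} (hu : Iso h u)
    (hv : Iso h v) (hx : Iso h x) (huv : h u v = 1) (hvx : h v x = 1) {g : K} (hux : h u x = g)
    (hg : nm g = 1) (hgt : trc g ≠ 0) {a b c : K} (ha : star a = a) (hb : star b = b)
    (hc : star c = c) (ha0 : a ≠ 0) (hb0 : b ≠ 0) (hc0 : c ≠ 0)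
    (H : Sol (a * a + b * b + c * c) (c * c * nm (b + a * star (g * g)))) :
    (a⁻¹, b⁻¹, c⁻¹) ∈ NB h u v x := by
  have h2 : (2 : K) = 0 := CharTwo.two_eq_zero
  have hn := nm_ne_h5 hg hgt ha hb ha0
  obtain ⟨z, hz1, hz2⟩ := H
  have hE : c * (b + a * star (g * g)) ≠ 0 :=
    mul_ne_zero hc0 (fun h0 => hn (by rw [h0, nm_zero]))
  refine finish_h5 hh ha hb hc ha0 hb0 hc0 ?_
  refine cell hh hu hv hx huv hvx hux hg hgt ha hb hc ha0 (X := 1)
    (Y := z / (c * (b + a * star (g * g)))) nm_one ?_ ?_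
  · rw [div_eq_mul_inv, nm_mul, nm_inv, hz2, nm_mul, nm_fixed_h5 hc]
    exact mul_inv_cancel₀ (mul_ne_zero (mul_ne_zero hc0 hc0) hn)
  · rw [mul_one, mul_div_cancel₀ _ hE, hz1, trc, star_one]
    linear_combination (a * a + b * b + c * c + a * b) * h2

private theorem not_mem_nb0_h5 (hstar : ∃ x : K, star x ≠ x) {a b c : K} (ha : star a = a)
    (hb : star b = b) (hc : star c = c) (hS : a * a + b * b + c * c ≠ 0)
    (H : a * b * (a * a + b * b + c * c)⁻¹ ∈ AS K) : (a⁻¹, b⁻¹, c⁻¹) ∉ NB0 K := by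
  have h2 : (2 : K) = 0 := CharTwo.two_eq_zero
  rintro ⟨-, -, -, h1⟩
  simp only [inv_inv] at h1
  have e1 : (a + b + c) ^ 2 = a * a + b * b + c * c := by
    linear_combination (a * b + a * c + b * c) * h2
  rw [e1] at h1
  have hSs : star (a * a + b * b + c * c) = a * a + b * b + c * c := by
    rw [star_add, star_add, star_mul, star_mul, star_mul, ha, hb, hc]
  have habs : star (a * b) = a * b := by rw [star_mul, ha, hb, mul_comm]
  have hM : star ((a * b) ^ 2) = (a * b) ^ 2 := by rw [star_pow, habs]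
  have h3 := (sol_iff hstar hSs hS hM).1 h1
  apply h3
  have e2 : (a * b) ^ 2 / ((a * a + b * b + c * c) * (a * a + b * b + c * c)) =
      (a * b * (a * a + b * b + c * c)⁻¹) * (a * b * (a * a + b * b + c * c)⁻¹) := by
    field_simp
  rw [e2, sq_mem_as]
  · exact H
  · rw [star_mul, star_inv₀, hSs, habs, mul_comm]

private theorem sol_of_h5 (hstar : ∃ x : K, star x ≠ x) {n r W c e : K} (hn : star n = n)
    (hc : star c = c) (hr : star r = r) (hW : star W = W) (hW0 : W ≠ 0) (hc2 : c * c = W⁻¹ + e)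
    (hrr : r * r = e * n) (H : (n + r) * W ∉ AS K) : Sol W⁻¹ (c * c * n) := by
  have h2 : (2 : K) = 0 := CharTwo.two_eq_zero
  rw [sol_iff hstar (by rw [star_inv₀, hW]) (inv_ne_zero hW0)
    (by rw [star_mul, star_mul, hn, hc, mul_comm])]
  intro h1
  apply H
  have e1 : c * c * n / (W⁻¹ * W⁻¹) = n * W + (r * W) * (r * W) := by
    rw [hc2]
    field_simp
    linear_combination (-W) * hrr
  rw [e1] at h1
  have h3 : (r * W) * (r * W) + r * W ∈ AS K := ⟨r * W, by rw [star_mul, hr, hW, mul_comm], rfl⟩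
  have h4 := as_add h1 h3
  have e2 : n * W + (r * W) * (r * W) + ((r * W) * (r * W) + r * W) = (n + r) * W := by
    linear_combination ((r * W) * (r * W)) * h2
  rwa [e2] at h4

omit [Finite K] [CharP K 2] in
private theorem zero_mem_h5 : (0 : K) ∈ AS K := ⟨0, star_zero K, by ring⟩

theorem nb_ne (hh : Herm h) (hstar : ∃ x : K, star x ≠ x)
    (hF : ∃ b : K, star b = b ∧ b ≠ 0 ∧ b ≠ 1) {u v x : V} (hu : Iso h u)
    (hv : Iso h v) (hx : Iso h x) (huv : h u v = 1) (hvx : h v x = 1) {g : K} (hux : h u x = g)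
    (hg : nm g = 1) (hgt : trc g ≠ 0) : ∃ p ∈ NB h u v x, p ∉ NB0 K := by
  have h2 : (2 : K) = 0 := CharTwo.two_eq_zero
  have hts : star (trc g) = trc g := star_trc g
  by_cases ht : trc g = 1
  · obtain ⟨b, hbs, hb0, hb1⟩ := hF
    obtain ⟨f, hfs, hff⟩ := exists_sqrt hbs
    have hf0 : f ≠ 0 := by
      rintro rfl
      exact hb0 (by rw [← hff, mul_zero])
    have hf1 : f + 1 ≠ 0 := by
      intro h0
      apply hb1
      rw [← hff]
      linear_combination (f - 1) * h0
    have hgg : g * g + g + 1 = 0 := by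
      rw [nm] at hg
      rw [trc] at ht
      linear_combination g * ht - hg + g * h2
    have hgs : star g ≠ g := by
      intro h0
      rw [trc, h0] at ht
      have : (1 : K) = 0 := by linear_combination g * h2 - ht
      exact one_ne_zero this
    have hq : 1 + f + f * f ≠ 0 := by
      intro h0
      have h3 : (f + g) * (f + g + 1) = 0 := by
        linear_combination h0 + hgg + (f * g - 1) * h2
      rcases mul_eq_zero.1 h3 with h4 | h4
      · apply hgs
        have h5 : f = g := by linear_combination h4 - g * h2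
        rw [← h5, hfs]
      · apply hgs
        have h5 : f + 1 = g := by linear_combination h4 - g * h2
        rw [← h5, star_add, hfs, star_one]
    have hks : star (f * (1 + f + f * f)) = f * (1 + f + f * f) := by
      simp only [star_mul, star_add, star_one, hfs]
      ring
    have hk0 : f * (1 + f + f * f) ≠ 0 := mul_ne_zero hf0 hq
    have hkl : f * (1 + f + f * f) ≠ f * f := by
      intro h0
      have h3 : f * ((f + 1) * (f + 1)) = 0 := by
        linear_combination h0 + (f * f) * h2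
      rcases mul_eq_zero.1 h3 with h4 | h4
      · exact hf0 h4
      · rcases mul_eq_zero.1 h4 with h5 | h5 <;> exact hf1 h5
    obtain ⟨W, hWs, hW1, hW2⟩ := exists_forms hstar hks (by rw [hff, hbs] : star (f * f) = f * f) hk0 hkl
    have hW0 : W ≠ 0 := by
      rintro rfl
      apply hW1
      rw [mul_zero]
      exact zero_mem_h5
    have hes : star (W⁻¹ + (1 + f * f) * (1 + f * f)) = W⁻¹ + (1 + f * f) * (1 + f * f) := by
      simp only [star_mul, star_add, star_one, hfs, star_inv₀, hWs]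
    obtain ⟨c, hcs, hcc⟩ := exists_sqrt hes
    have he0 : 1 + f * f ≠ 0 := by
      intro h0
      have h3 : (f + 1) * (f + 1) = 0 := by linear_combination h0 + f * h2
      rcases mul_eq_zero.1 h3 with h5 | h5 <;> exact hf1 h5
    have hc0 : c ≠ 0 := by
      rintro rfl
      apply hW1
      refine ⟨(1 + f + f * f) / (1 + f * f), ?_, ?_⟩
      · rw [star_div₀]
        simp only [star_mul, star_add, star_one, hfs]
      · have h3 : W * ((1 + f * f) * (1 + f * f)) = 1 := by
          have h4 : W⁻¹ = (1 + f * f) * (1 + f * f) := by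
            linear_combination -hcc - ((1 + f * f) * (1 + f * f)) * h2
          rw [← h4]
          exact mul_inv_cancel₀ hW0
        have h5 : W = 1 / ((1 + f * f) * (1 + f * f)) := by
          rw [eq_div_iff (mul_ne_zero he0 he0)]
          exact h3
        have h6 : (1 + f + f * f) / (1 + f * f) * ((1 + f + f * f) / (1 + f * f)) +
            (1 + f + f * f) / (1 + f * f) = ((1 + f + f * f) * (1 + f + f * f) +
              (1 + f + f * f) * (1 + f * f)) / ((1 + f * f) * (1 + f * f)) := by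
          field_simp
        rw [h5, h6, mul_one_div]
        congr 1
        linear_combination (1 + f + f * f) * (1 + f * f) * h2
    have hn : nm (f * f + 1 * star (g * g)) = (1 + f + f * f) * (1 + f + f * f) := by
      rw [nm_eq_h5 hg (star_one K) (by rw [hff, hbs]), ht]
      linear_combination (-(f + f * f + f * f * f)) * h2
    have hS : 1 * 1 + (f * f) * (f * f) + c * c = W⁻¹ := by
      linear_combination hcc + (1 + f * f + f * f * f * f) * h2
    refine ⟨((1 : K)⁻¹, (f * f)⁻¹, c⁻¹), mem_nb_h5 hh hu hv hx huv hvx hux hg hgt (star_one K)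
      (by rw [hff, hbs]) hcs one_ne_zero (mul_ne_zero hf0 hf0) hc0 ?_,
      not_mem_nb0_h5 hstar (star_one K) (by rw [hff, hbs]) hcs ?_ ?_⟩
    · rw [hS, hn]
      refine sol_of_h5 hstar (r := (1 + f * f) * (1 + f + f * f)) ?_ hcs ?_ hWs hW0 hcc ?_ ?_
      · simp only [star_mul, star_add, star_one, hfs]
      · simp only [star_mul, star_add, star_one, hfs]
        ring
      · ring
      · intro h0
        apply hW1
        convert h0 using 1
        linear_combination (-(1 + f + f * f) * (1 + f * f) * W) * h2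
    · rw [hS]
      exact inv_ne_zero hW0
    · rw [hS, inv_inv, one_mul]
      exact hW2
  · have hk0 : trc g * trc g ≠ 0 := mul_ne_zero hgt hgt
    have hkl : trc g * trc g ≠ 1 := by
      intro h0
      apply ht
      have h3 : (trc g + 1) * (trc g + 1) = 0 := by linear_combination h0 + (1 + trc g) * h2
      have h4 : trc g + 1 = 0 := by
        rcases mul_eq_zero.1 h3 with h5 | h5 <;> exact h5
      linear_combination h4 - h2
    obtain ⟨W, hWs, hW1, hW2⟩ := exists_forms hstar
      (by rw [star_mul, hts] : star (trc g * trc g) = trc g * trc g) (star_one K) hk0 hkl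
    have hW0 : W ≠ 0 := by
      rintro rfl
      apply hW1
      rw [mul_zero]
      exact zero_mem_h5
    obtain ⟨c, hcs, hcc⟩ := exists_sqrt (by rw [star_inv₀, hWs] : star W⁻¹ = W⁻¹)
    have hc0 : c ≠ 0 := by
      rintro rfl
      rw [mul_zero] at hcc
      exact inv_ne_zero hW0 hcc.symm
    have hn : nm (1 + 1 * star (g * g)) = trc g * trc g := by
      rw [nm_eq_h5 hg (star_one K) (star_one K)]
      linear_combination h2
    have hS : (1 : K) * 1 + 1 * 1 + c * c = W⁻¹ := by
      linear_combination hcc + h2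
    refine ⟨((1 : K)⁻¹, (1 : K)⁻¹, c⁻¹), mem_nb_h5 hh hu hv hx huv hvx hux hg hgt (star_one K)
      (star_one K) hcs one_ne_zero one_ne_zero hc0 ?_,
      not_mem_nb0_h5 hstar (star_one K) (star_one K) hcs ?_ ?_⟩
    · rw [hS, hn]
      refine sol_of_h5 hstar (r := 0) (e := 0) ?_ hcs (star_zero K) hWs hW0 (by rw [hcc, add_zero])
        (by ring) ?_
      · rw [star_mul, hts]
      · rwa [add_zero]
    · rw [hS]
      exact inv_ne_zero hW0
    · rw [hS, inv_inv]
      simpa using hW2

end Pool.Agent.Helper81.UT
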