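import Pool.Agent.Helper81.UT.Dim

/-!
# Block UT-ND: the number of common neighbour triples is preserved

`nb_congr`: `h s (a • u)` changes by a factor of norm one. `LT.symm`: from `right`, `left` and
`nm_congr`, `zero_congr`. `nb_le`: let `u` be isotropic, `a ≠ 0` fixed by `star`. `h (a u) u = 0`, so
`h (T (a u)) (T u) = 0` and `T (a u) = l T u` (`same_point`), `l ≠ 0`; let `a'` be the square root of `nm l`
(`exists_sqrt`), nonzero, fixed by `star`, `Eqv (T (a u)) (a' T u)`. The map `a ↦ a'` (choice) is injective: if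
`a' = b'` then `T (a u)` and `T (b u)` are equivalent, so `a u` and `b u` are (`eqv`), `a² = b²`. If `s` is a common
neighbour of `a u`, `b v`, `c x` then `T s` is one of `T (a u)`, ..., hence of `a' T u`, ... (`one`, `nm_congr`).
So `(a, b, c) ↦ (a', b', c')` is an injection of `NB h u v x` into `NB h (T u) (T v) (T x)`;
`Nat.card_le_card_of_injective`.
-/

set_option autoImplicit false

namespace Pool.Agent.Helper81.UT

variable {K V : Type*} [Field K] [Finite K] [CharP K 2] [StarRing K] [AddCommGroup V] [Module K V]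
  [FiniteDimensional K V] {h : V → V → K}

omit [Finite K] [CharP K 2] [FiniteDimensional K V] in
private theorem eqv_smul {y y' : V} (e : Eqv K y y') (a : K) : Eqv K (a • y) (a • y') := by
  obtain ⟨m, hm, rfl⟩ := e
  exact ⟨m, hm, by rw [smul_smul, smul_smul, mul_comm]⟩

private theorem exists_scale (hh : Herm h) (hstar : ∃ x : K, star x ≠ x)
    (hdim : Module.finrank K V = 3) {T T' : V → V} (hT : LT h T T') {u : V} (hu : Iso h u) {a : K}
    (ha0 : a ≠ 0) : ∃ a' : K, star a' = a' ∧ a' ≠ 0 ∧ Eqv K (T (a • u)) (a' • T u) := by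
  have hau : Iso h (a • u) := hu.smul hh ha0
  have h0 : h u (a • u) = 0 := by rw [hh.smul_right, hu.2, mul_zero]
  obtain ⟨l, hl⟩ := same_point hh hstar hdim (hT.iso u hu) (hT.iso _ hau)
    ((hT.perp u _ hu hau).2 h0)
  have hl0 : l ≠ 0 := by
    rintro rfl
    rw [zero_smul] at hl
    exact (hT.iso _ hau).1 hl
  obtain ⟨r, hr, hrr⟩ := exists_sqrt (star_nm l)
  have hnr : nm r = nm l := by rw [nm, hr, hrr]
  have hnl : nm l ≠ 0 := fun hc => hl0 (nm_eq_zero.1 hc)
  refine ⟨r, hr, ?_, r * l⁻¹, ?_, ?_⟩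
  · rintro rfl
    rw [nm_zero] at hnr
    exact hnl hnr.symm
  · rw [nm_mul, nm_inv, hnr, mul_inv_cancel₀ hnl]
  · rw [hl, smul_smul, mul_assoc, inv_mul_cancel₀ hl0, mul_one]

private theorem exists_fun (hh : Herm h) (hstar : ∃ x : K, star x ≠ x)
    (hdim : Module.finrank K V = 3) {T T' : V → V} (hT : LT h T T') {u : V} (hu : Iso h u) :
    ∃ f : K → K, (∀ a, star a = a ∧ a ≠ 0 → star (f a) = f a ∧ f a ≠ 0 ∧
      Eqv K (T (a • u)) (f a • T u)) ∧
      ∀ a b, star a = a ∧ a ≠ 0 → star b = b ∧ b ≠ 0 → f a = f b → a = b := by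
  have hex : ∀ a : K, ∃ a' : K, star a = a ∧ a ≠ 0 → star a' = a' ∧ a' ≠ 0 ∧
      Eqv K (T (a • u)) (a' • T u) := by
    intro a
    by_cases ha : star a = a ∧ a ≠ 0
    · obtain ⟨a', h'⟩ := exists_scale hh hstar hdim hT hu ha.2
      exact ⟨a', fun _ => h'⟩
    · exact ⟨0, fun hc => absurd hc ha⟩
  choose f hf using hex
  refine ⟨f, hf, ?_⟩
  intro a b ha hb hab
  have e1 := (hf a ha).2.2
  have e2 := (hf b hb).2.2
  rw [← hab] at e2
  have e3 : Eqv K (a • u) (b • u) :=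
    (hT.eqv _ _ (hu.smul hh ha.2) (hu.smul hh hb.2)).1 (e1.trans e2.symm)
  obtain ⟨m, hm, hmu⟩ := e3
  rw [smul_smul] at hmu
  have hb' : b = m * a := smul_left_injective K hu.1 hmu
  have hn : nm b = nm a := by rw [hb', nm_mul, hm, one_mul]
  rw [nm, nm, ha.1, hb.1] at hn
  rcases mul_self_eq_mul_self_iff.1 hn with h1 | h1
  · exact h1.symm
  · rw [h1, CharTwo.neg_eq]

theorem nb_congr (hh : Herm h) {u v x u' v' x' : V} (e1 : Eqv K u u') (e2 : Eqv K v v')
    (e3 : Eqv K x x') : NB h u v x = NB h u' v' x' := by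
  have key : ∀ {y y' : V}, Eqv K y y' → ∀ (a : K) (s : V), nm (h s (a • y')) = nm (h s (a • y)) := by
    intro y y' e a s
    exact hh.nm_congr (Eqv.refl s) (eqv_smul e a)
  ext p
  constructor
  · rintro ⟨ha, hb, hc, s, hs, h1, h2, h3⟩
    exact ⟨ha, hb, hc, s, hs, by rw [key e1, h1], by rw [key e2, h2], by rw [key e3, h3]⟩
  · rintro ⟨ha, hb, hc, s, hs, h1, h2, h3⟩
    exact ⟨ha, hb, hc, s, hs, by rw [← key e1, h1], by rw [← key e2, h2], by rw [← key e3, h3]⟩

theorem LT.symm (hh : Herm h) {T T' : V → V} (hT : LT h T T') : LT h T' T := by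
  refine ⟨hT.iso', hT.iso, ?_, hT.right, hT.left, ?_, ?_⟩
  · intro u v hu hv
    rw [← hT.eqv (T' u) (T' v) (hT.iso' u hu) (hT.iso' v hv)]
    constructor
    · intro e
      exact (hT.right u hu).symm.trans (e.trans (hT.right v hv))
    · intro e
      exact (hT.right u hu).trans (e.trans (hT.right v hv).symm)
  · intro u v hu hv
    rw [← hT.perp (T' u) (T' v) (hT.iso' u hu) (hT.iso' v hv)]
    exact (hh.zero_congr (hT.right u hu) (hT.right v hv)).symm
  · intro u v hu hv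
    rw [← hT.one (T' u) (T' v) (hT.iso' u hu) (hT.iso' v hv),
      hh.nm_congr (hT.right u hu) (hT.right v hv)]

theorem nb_le (hh : Herm h) (hstar : ∃ x : K, star x ≠ x) (hdim : Module.finrank K V = 3)
    {T T' : V → V} (hT : LT h T T') {u v x : V} (hu : Iso h u) (hv : Iso h v) (hx : Iso h x) :
    Nat.card (NB h u v x) ≤ Nat.card (NB h (T u) (T v) (T x)) := by
  obtain ⟨f, hf, fi⟩ := exists_fun hh hstar hdim hT hu
  obtain ⟨g, hg, gi⟩ := exists_fun hh hstar hdim hT hv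
  obtain ⟨k, hk, ki⟩ := exists_fun hh hstar hdim hT hx
  have key : ∀ {y : V} {a a' : K} {s : V}, Iso h y → Iso h s → a ≠ 0 →
      Eqv K (T (a • y)) (a' • T y) → nm (h s (a • y)) = 1 → nm (h (T s) (a' • T y)) = 1 := by
    intro y a a' s hy hs ha e h1
    rw [hh.nm_congr (Eqv.refl (T s)) e]
    exact (hT.one s (a • y) hs (hy.smul hh ha)).2 h1
  have mem : ∀ p : NB h u v x, (f p.1.1, g p.1.2.1, k p.1.2.2) ∈ NB h (T u) (T v) (T x) := by
    rintro ⟨⟨a, b, c⟩, ⟨ha, hb, hc, s, hs, h1, h2, h3⟩⟩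
    obtain ⟨fa, fa0, ea⟩ := hf a ha
    obtain ⟨gb, gb0, eb⟩ := hg b hb
    obtain ⟨kc, kc0, ec⟩ := hk c hc
    exact ⟨⟨fa, fa0⟩, ⟨gb, gb0⟩, ⟨kc, kc0⟩, T s, hT.iso s hs, key hu hs ha.2 ea h1,
      key hv hs hb.2 eb h2, key hx hs hc.2 ec h3⟩
  refine Nat.card_le_card_of_injective
    (fun p : NB h u v x => (⟨(f p.1.1, g p.1.2.1, k p.1.2.2), mem p⟩ :
      NB h (T u) (T v) (T x))) ?_
  intro p q hpq
  have h0 := congrArg Subtype.val hpq
  simp only [Prod.mk.injEq] at h0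
  exact Subtype.ext (Prod.ext (fi _ _ p.2.1 q.2.1 h0.1) (Prod.ext
    (gi _ _ p.2.2.1 q.2.2.1 h0.2.1) (ki _ _ p.2.2.2.1 q.2.2.2.1 h0.2.2)))

end Pool.Agent.Helper81.UT
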