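import Pool.Agent.Helper81.UT.Pair

/-!
# Block UT-SE: separation

(1) `x = a`: `h a y' ≠ 0`. `x = l a` with `nm l = (nm (h a y))⁻¹` (`nm_surj`): `nm (h a y') = nm (h a y)`. Replace
`y'` by `m y'`, `nm m = 1`, so that `h y' a = h y a`. Put `k = h a y`, `v = c y` with `star c * k = 1` (so
`h a v = 1`), `d = y' - y`, `h d a = 0`, so `d = s a + w` with `w ⊥ a, y` (`decomp` for the pair `a`, `v`).
(2) Let `w ≠ 0`, `e ⊥ a, v` with `E = h e e ≠ 0`, `f = h e w ≠ 0` (`exists_not_perp`). For `α`, `γ` with
`nm α = (nm k)⁻¹`, `trc α = nm γ * E` the vector `x = α a + v + γ e` is isotropic, `h x a = 1`,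
`h x y = α k` has norm one, so `nm (h x y') = 1`, `h x y' = A + γ f`, `A = α k + star s`. Let `r` be the square
root of `(nm k)⁻¹` (fixed by `star`), `m` a unit (`nm m = 1`, `m ≠ 1`) and `α = m r`: `trc α ≠ 0`, so
there is `γ₀` with `nm γ₀ * E = trc α`, and `γ = γ₀ n` is admissible for each unit `n`. So
`nm A + nm (γ₀ f) + trc (A * star (γ₀ f) * star n) = 1` for all units `n`; with `C = A * star (γ₀ f)` all
`C * star n` are roots of the same quadratic polynomial `Z² + t Z + nm C`, so `C = 0` by `three_units`, `A = 0`,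
`star s = -m r k`. This holds for two different units `m` (`three_units`), a contradiction.
(3) So `y' = y + s a`; `h y' y' = 0` gives `trc (s k) = 0`. For `x = r a + v`: `h x y = r k`, norm one, and
`h x y' = r k + star s` has norm `1 + r trc (k s) + nm s = 1 + nm s`. So `s = 0`.
-/

set_option autoImplicit false

namespace Pool.Agent.Helper81.UT

variable {K V : Type*} [Field K] [Finite K] [CharP K 2] [StarRing K] [AddCommGroup V] [Module K V]
  [FiniteDimensional K V] {h : V → V → K}

omit [Finite K] [CharP K 2] in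
/-- Two elements with the same trace and norm are equal or conjugate. -/
private theorem root32 {z1 z2 : K} (ht : trc z2 = trc z1) (hn : nm z2 = nm z1) :
    z2 = z1 ∨ z2 = star z1 := by
  have h1 : (z2 - z1) * (z2 - star z1) = 0 := by
    unfold trc at ht
    unfold nm at hn
    linear_combination z2 * ht - hn
  rcases mul_eq_zero.1 h1 with h2 | h2
  · exact Or.inl (sub_eq_zero.1 h2)
  · exact Or.inr (sub_eq_zero.1 h2)

private theorem const32 (hstar : ∃ x : K, star x ≠ x) {C t : K}
    (h1 : ∀ n : K, nm n = 1 → trc (C * star n) = t) : C = 0 := by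
  by_contra hC
  obtain ⟨m, n, hm, hn, hm1, hn1, hmn⟩ := three_units (K := K) hstar
  have key : ∀ n : K, nm n = 1 → nm (C * star n) = nm C := by
    intro n hn
    rw [nm_mul, nm_star, hn, mul_one]
  have e1 : trc (C * star m) = trc C := by
    rw [h1 m hm, ← h1 1 nm_one, star_one, mul_one]
  have e2 : trc (C * star n) = trc C := by
    rw [h1 n hn, ← h1 1 nm_one, star_one, mul_one]
  have ne : ∀ n : K, n ≠ 1 → C * star n ≠ C := by
    intro n hn1 h2
    apply hn1
    have h3 : star n = 1 := by
      apply mul_left_cancel₀ hC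
      rw [h2, mul_one]
    rw [← star_star n, h3, star_one]
  have r1 := (root32 e1 (key m hm)).resolve_left (ne m hm1)
  have r2 := (root32 e2 (key n hn)).resolve_left (ne n hn1)
  apply hmn
  have h4 : star m = star n := by
    apply mul_left_cancel₀ hC
    rw [r1, r2]
  rw [← star_star m, h4, star_star]

omit [Finite K] [CharP K 2] in
private theorem nm_add32 (x y : K) : nm (x + y) = nm x + nm y + trc (x * star y) := by
  unfold nm trc
  rw [star_add, star_mul, star_star]
  ring

private theorem sep32 (hh : Herm h) (hstar : ∃ x : K, star x ≠ x) {a y y' : V} (ha : Iso h a)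
    (hy : Iso h y) (hy' : Iso h y') (hya : h y a ≠ 0) (heq : h y' a = h y a)
    (H : ∀ x, Iso h x → nm (h x a) = 1 → nm (h x y) = 1 → nm (h x y') = 1) : y' = y := by
  have two : (2 : K) = 0 := CharTwo.two_eq_zero
  obtain ⟨k, hk⟩ : ∃ k : K, k = h a y := ⟨_, rfl⟩
  have hk0 : k ≠ 0 := by
    rw [hk]
    intro h0
    exact hya (hh.eq_zero_comm.1 h0)
  have hks : star k = h y a := by rw [hk, hh.symm]
  obtain ⟨v, hv⟩ : ∃ v : V, v = star k⁻¹ • y := ⟨_, rfl⟩
  have hsk : star k⁻¹ ≠ 0 := by
    rw [Ne, star_eq_zero]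
    exact inv_ne_zero hk0
  have hvI : Iso h v := by
    rw [hv]
    exact hy.smul hh hsk
  have hav : h a v = 1 := by
    rw [hv, hh.smul_right, star_star, ← hk, inv_mul_cancel₀ hk0]
  have hva : h v a = 1 := by rw [← hh.symm a v, hav, star_one]
  have hvy : h v y = 0 := by rw [hv, hh.smul, hy.2, mul_zero]
  have perp_y : ∀ e : V, h e v = 0 → h e y = 0 := by
    intro e he
    rw [hv, hh.smul_right, star_star] at he
    exact (mul_eq_zero.1 he).resolve_left (inv_ne_zero hk0)
  -- the difference
  obtain ⟨w, hwa, hwv, hd⟩ := decomp hh ha hvI hav (y' - y)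
  have hda : h (y' - y) a = 0 := by
    rw [sub_eq_add_neg, hh.add, hh.neg_left, heq, add_neg_cancel]
  rw [hda, zero_smul, add_zero] at hd
  obtain ⟨s, hs⟩ : ∃ s : K, s = h (y' - y) v := ⟨_, rfl⟩
  rw [← hs] at hd
  have hy'e : y' = y + s • a + w := by
    have h1 : y' = y + (y' - y) := by abel
    rw [h1, hd]
    abel
  have hwa' : h a w = 0 := hh.eq_zero_comm.1 hwa
  have hwv' : h v w = 0 := hh.eq_zero_comm.1 hwv
  obtain ⟨r, hrs, hrr⟩ : ∃ r : K, star r = r ∧ r * r = (nm k)⁻¹ := by
    apply exists_sqrt
    rw [star_inv₀, star_nm]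
  have hnk : nm k ≠ 0 := by
    rw [Ne, nm_eq_zero]; exact hk0
  have hr0 : r ≠ 0 := by
    rintro rfl
    rw [mul_zero] at hrr
    exact (inv_ne_zero hnk) hrr.symm
  have hnr : nm r * nm k = 1 := by
    have : nm r = r * r := by rw [nm, hrs]
    rw [this, hrr, inv_mul_cancel₀ hnk]
  -- step 2
  have hw : w = 0 := by
    by_contra hw0
    obtain ⟨e, hea, hev, hee, hew⟩ := exists_not_perp hh hstar ha hvI hav hwa hwv hw0
    have hae : h a e = 0 := hh.eq_zero_comm.1 hea
    have hve : h v e = 0 := hh.eq_zero_comm.1 hev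
    have key : ∀ m : K, nm m = 1 → m ≠ 1 → m * r * k + star s = 0 := by
      intro m hm hm1
      have htm : trc m ≠ 0 := by
        intro h0
        rw [trc_eq_zero] at h0
        exact hm1 (fixed_norm_one h0 hm)
      have hta : trc (m * r) = trc m * r := by
        unfold trc
        rw [star_mul, hrs]
        ring
      have hta0 : trc (m * r) ≠ 0 := by
        rw [hta]; exact mul_ne_zero htm hr0
      obtain ⟨g0, hg0⟩ : ∃ g0 : K, nm g0 = trc (m * r) * (h e e)⁻¹ := by
        apply nm_surj
        rw [star_mul, star_inv₀, hh.self, star_trc, mul_comm]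
      have hgE : nm g0 * h e e = trc (m * r) := by
        rw [hg0, mul_assoc, inv_mul_cancel₀ hee, mul_one]
      have hg00 : g0 ≠ 0 := by
        rintro rfl
        rw [nm_zero, zero_mul] at hgE
        exact hta0 hgE.symm
      have all : ∀ n : K, nm n = 1 → trc ((m * r * k + star s) * star (g0 * h e w) * star n) =
          1 - nm (m * r * k + star s) - nm (g0 * h e w) := by
        intro n hn
        obtain ⟨x, hx⟩ : ∃ x : V, x = (m * r) • a + v + (g0 * n) • e := ⟨_, rfl⟩
        have hxa : h x a = 1 := by
          rw [hx, hh.add, hh.add, hh.smul, hh.smul, ha.2, hva, hea]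
          ring
        have hxv : h x v = m * r := by
          rw [hx, hh.add, hh.add, hh.smul, hh.smul, hav, hvI.2, hev]
          ring
        have hxe : h x e = g0 * n * h e e := by
          rw [hx, hh.add, hh.add, hh.smul, hh.smul, hae, hve]
          ring
        have hxr : ∀ z : V, h z x = star (m * r) * h z a + h z v + star (g0 * n) * h z e := by
          intro z
          rw [hx, hh.add_right, hh.add_right, hh.smul_right, hh.smul_right]
        have hxx : h x x = 0 := by
          rw [hxr x, hxa, hxv, hxe]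
          have h2 : star (g0 * n) * (g0 * n * h e e) = nm g0 * nm n * h e e := by
            rw [← nm_mul]
            unfold nm
            ring
          rw [h2, hn, mul_one, mul_one, hgE]
          unfold trc
          linear_combination (m * r + star (m * r)) * two
        have hxI : Iso h x := by
          refine ⟨?_, hxx⟩
          rintro h0
          rw [h0, hh.zero_left] at hxa
          exact zero_ne_one hxa
        have hxy : h x y = m * r * k := by
          rw [hx, hh.add, hh.add, hh.smul, hh.smul, hvy, perp_y e hev, ← hk]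
          ring
        have hxw : h x w = g0 * n * h e w := by
          rw [hx, hh.add, hh.add, hh.smul, hh.smul, hwa', hwv']
          ring
        have hxy' : h x y' = (m * r * k + star s) + g0 * n * h e w := by
          rw [hy'e, hh.add_right, hh.add_right, hh.smul_right, hxy, hxa, hxw, mul_one]
        have h3 := H x hxI (by rw [hxa, nm_one]) (by rw [hxy, nm_mul, nm_mul, hm, one_mul, hnr])
        rw [hxy', nm_add32] at h3
        have h4 : nm (g0 * n * h e w) = nm (g0 * h e w) := by
          rw [nm_mul, nm_mul, nm_mul, hn, mul_one]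
        have h5 : star (g0 * n * h e w) = star (g0 * h e w) * star n := by
          rw [star_mul, star_mul, star_mul]
          ring
        rw [h4, h5, ← mul_assoc] at h3
        linear_combination h3
      have h6 := const32 hstar all
      rcases mul_eq_zero.1 h6 with h7 | h7
      · exact h7
      · rw [star_eq_zero, mul_eq_zero] at h7
        rcases h7 with h7 | h7
        · exact absurd h7 hg00
        · exact absurd h7 hew
    obtain ⟨m, n, hm, hn, hm1, hn1, hmn⟩ := three_units (K := K) hstar
    have k1 := key m hm hm1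
    have k2 := key n hn hn1
    apply hmn
    have h8 : (m - n) * (r * k) = 0 := by linear_combination k1 - k2
    exact sub_eq_zero.1 ((mul_eq_zero.1 h8).resolve_right (mul_ne_zero hr0 hk0))
  -- step 3
  rw [hw, add_zero] at hy'e
  have htr : trc (s * k) = 0 := by
    have h1 := hy'.2
    rw [hy'e, hh.add, hh.add_right, hh.smul_right, hh.smul, hh.add_right, hh.smul_right, hy.2, ha.2,
      ← hk, ← hks] at h1
    unfold trc
    rw [star_mul]
    linear_combination h1
  have hs0 : s = 0 := by
    obtain ⟨x, hx⟩ : ∃ x : V, x = r • a + v := ⟨_, rfl⟩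
    have hxa : h x a = 1 := by
      rw [hx, hh.add, hh.smul, ha.2, hva]
      ring
    have hxI : Iso h x := by
      refine ⟨?_, ?_⟩
      · rintro h0
        rw [h0, hh.zero_left] at hxa
        exact zero_ne_one hxa
      · rw [hx, hh.add, hh.add_right, hh.add_right, hh.smul, hh.smul, hh.smul_right, hh.smul_right, ha.2, hav,
          hvI.2, hva, hrs]
        linear_combination r * two
    have hxy : h x y = r * k := by
      rw [hx, hh.add, hh.smul, hvy, ← hk]
      ring
    have hxy' : h x y' = r * k + star s := by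
      rw [hy'e, hh.add_right, hh.smul_right, hxy, hxa, mul_one]
    have h3 := H x hxI (by rw [hxa, nm_one]) (by rw [hxy, nm_mul, hnr])
    rw [hxy', nm_add32, nm_mul, hnr, nm_star, star_star] at h3
    have h4 : trc (r * k * s) = 0 := by
      have h5 : trc (r * k * s) = r * trc (s * k) := by
        unfold trc
        rw [star_mul, star_mul, star_mul, hrs]
        ring
      rw [h5, htr, mul_zero]
    rw [h4, add_zero] at h3
    have h5 : nm s = 0 := by linear_combination h3
    exact nm_eq_zero.1 h5
  rw [hy'e, hs0, zero_smul, add_zero]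

theorem sep (hh : Herm h) (hstar : ∃ x : K, star x ≠ x) {a y y' : V} (ha : Iso h a)
    (hy : Iso h y) (hy' : Iso h y') (hya : h y a ≠ 0)
    (H : ∀ x, Iso h x → (h x a = 0 ∨ nm (h x a) = 1) →
      (h x y = 0 ↔ h x y' = 0) ∧ (nm (h x y) = 1 ↔ nm (h x y') = 1)) : Eqv K y y' := by
  have hay : h a y ≠ 0 := fun h0 => hya (hh.eq_zero_comm.1 h0)
  have haa := H a ha (Or.inl ha.2)
  have hay' : h a y' ≠ 0 := fun h0 => hay (haa.1.2 h0)
  have hya' : h y' a ≠ 0 := fun h0 => hay' (hh.eq_zero_comm.1 h0)
  -- the norms agree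
  have hnn : nm (h a y') = nm (h a y) := by
    obtain ⟨l, hl⟩ : ∃ l : K, nm l = (nm (h a y))⁻¹ := by
      apply nm_surj
      rw [star_inv₀, star_nm]
    have hn0 : nm (h a y) ≠ 0 := by rw [Ne, nm_eq_zero]; exact hay
    have hl0 : l ≠ 0 := by
      rintro rfl
      rw [nm_zero] at hl
      exact (inv_ne_zero hn0) hl.symm
    have h1 := (H (l • a) (ha.smul hh hl0) (Or.inl (by rw [hh.smul, ha.2, mul_zero]))).2.1
      (by rw [hh.smul, nm_mul, hl, inv_mul_cancel₀ hn0])
    rw [hh.smul, nm_mul, hl] at h1
    have h2 : nm (h a y) * ((nm (h a y))⁻¹ * nm (h a y')) = nm (h a y) := by rw [h1, mul_one]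
    rwa [← mul_assoc, mul_inv_cancel₀ hn0, one_mul] at h2
  obtain ⟨m, hm⟩ : ∃ m : K, m = h y a / h y' a := ⟨_, rfl⟩
  have hnm : nm m = 1 := by
    have h1 : m * h y' a = h y a := by rw [hm, div_mul_cancel₀ _ hya']
    have h2 := congrArg nm h1
    rw [nm_mul, hh.nm_comm y' a, hh.nm_comm y a, hnn] at h2
    have hn0 : nm (h a y) ≠ 0 := by rw [Ne, nm_eq_zero]; exact hay
    exact mul_right_cancel₀ hn0 (h2.trans (one_mul _).symm)
  have hm0 : m ≠ 0 := by
    rintro rfl
    rw [nm_zero] at hnm
    exact zero_ne_one hnm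
  have hfin : m • y' = y := by
    apply sep32 hh hstar ha hy (hy'.smul hh hm0) hya
    · rw [hh.smul, hm, div_mul_cancel₀ _ hya']
    · intro x hx hxa hxy
      have h1 := (H x hx (Or.inr hxa)).2.1 hxy
      rw [hh.smul_right, nm_mul, nm_star, hnm, one_mul, h1]
  exact Eqv.symm ⟨m, hnm, hfin.symm⟩

end Pool.Agent.Helper81.UT
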