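import Pool.Agent.Helper81.UT.Dim

/-!
# Block UT-U4: the third transvection, dimension at least four

`uniq_plane`: let `t = h u v`, `nm t = 1`. `h x u = β h v u`, `h x v = α h u v`, so `nm α = nm β = 1`, and
`h x x = trc (α star β t) = 0`, so `α star β t` is fixed by `star` and has norm one: it is `1`
(`trc_eq_zero`, `fixed_norm_one`), `x = β (v + h v u u)`. `rigid_four`: `x = act h u v` is isotropic with
`nm (h x u) = nm (h x v) = 1`, and orthogonal to every isotropic `y` orthogonal to `u` and `v`. The same
holds for `T x`, `T u`, `T v` (`one`, `perp`, `right`: every isotropic vector is `T (T' y)` up to norm one).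
Scale `T v` so that `h (T u) (m T v) = 1`; `decomp`: `T x = a T u + b m T v + w` and `h y w = 0` for all
isotropic `y` orthogonal to `T u`, `T v`, so `w = 0` (`eq_zero_of_perp`), and `uniq_plane` applies.
-/

set_option autoImplicit false

namespace Pool.Agent.Helper81.UT

variable {K V : Type*} [Field K] [Finite K] [CharP K 2] [StarRing K] [AddCommGroup V] [Module K V]
  [FiniteDimensional K V] {h : V → V → K}

theorem uniq_plane (hh : Herm h) {u v x : V} (hu : Iso h u) (hv : Iso h v) (hx : Iso h x)
    (huv : nm (h u v) = 1) (hxu : nm (h x u) = 1) (hxv : nm (h x v) = 1)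
    (hc : ∃ a b : K, x = a • u + b • v) : Eqv K x (act h u v) := by
  obtain ⟨a, b, rfl⟩ := hc
  have hvu : h v u = star (h u v) := (hh.symm u v).symm
  have e1 : h (a • u + b • v) u = b * star (h u v) := by
    rw [hh.add, hh.smul, hh.smul, hu.2, mul_zero, zero_add, hvu]
  have e2 : h (a • u + b • v) v = a * h u v := by
    rw [hh.add, hh.smul, hh.smul, hv.2, mul_zero, add_zero]
  rw [e1, nm_mul, nm_star, huv, mul_one] at hxu
  rw [e2, nm_mul, huv, mul_one] at hxv
  have e3 : h (a • u + b • v) (a • u + b • v) = trc (a * star b * h u v) := by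
    rw [hh.add_right, hh.smul_right, hh.smul_right, e1, e2, trc, star_mul, star_mul, star_star]
    ring
  have e4 : star (a * star b * h u v) = a * star b * h u v := by
    rw [← trc_eq_zero, ← e3]
    exact hx.2
  have e5 : a * star b * h u v = 1 :=
    fixed_norm_one e4 (by rw [nm_mul, nm_mul, nm_star, hxu, hxv, huv, one_mul, one_mul])
  refine ⟨star b, by rw [nm_star, hxu], ?_⟩
  have e6 : star b * b = 1 := by rw [mul_comm]; exact hxu
  have e7 : star b * a = star (h u v) := by
    have e8 : h u v * star (h u v) = 1 := huv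
    linear_combination (star (h u v)) * e5 - (star b * a) * e8
  rw [act, smul_add, smul_smul, smul_smul, e6, e7, hvu, one_smul, add_comm]

theorem rigid_four (hh : Herm h) (hstar : ∃ x : K, star x ≠ x) (hdim : 4 ≤ Module.finrank K V)
    {T T' : V → V} (hT : LT h T T') {u v : V} (hu : Iso h u) (hv : Iso h v)
    (huv : nm (h u v) = 1) : Eqv K (T (act h u v)) (act h (T u) (T v)) := by
  have hvu : h v u = star (h u v) := (hh.symm u v).symm
  have hx : Iso h (act h u v) := act_iso hh hu hv
  have hxu : nm (h (act h u v) u) = 1 := by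
    rw [act, hh.add, hh.smul, hu.2, mul_zero, add_zero, hvu, nm_star, huv]
  have hxv : nm (h (act h u v) v) = 1 := by
    have e8 : h u v * star (h u v) = 1 := huv
    rw [act, hh.add, hh.smul, hv.2, zero_add, hvu, mul_comm, e8, nm_one]
  have hxy : ∀ y, h y u = 0 → h y v = 0 → h y (act h u v) = 0 := by
    intro y h1 h2
    rw [act, hh.add_right, hh.smul_right, h1, h2, mul_zero, add_zero]
  have hTu := hT.iso u hu
  have hTv := hT.iso v hv
  have hTx := hT.iso _ hx
  have huv' := (hT.one u v hu hv).2 huv
  have hxu' := (hT.one _ u hx hu).2 hxu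
  have hxv' := (hT.one _ v hx hv).2 hxv
  have hxy' : ∀ y, Iso h y → h y (T u) = 0 → h y (T v) = 0 → h y (T (act h u v)) = 0 := by
    intro y hy h1 h2
    have hy' := hT.iso' y hy
    have e := hT.right y hy
    have h3 := (hT.perp _ u hy' hu).1 ((hh.zero_congr e (Eqv.refl (T u))).1 h1)
    have h4 := (hT.perp _ v hy' hv).1 ((hh.zero_congr e (Eqv.refl (T v))).1 h2)
    exact (hh.zero_congr e (Eqv.refl (T (act h u v)))).2 ((hT.perp _ _ hy' hx).2 (hxy _ h3 h4))
  have hs0 : h (T u) (T v) ≠ 0 := by
    intro h0
    rw [h0, nm_zero] at huv'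
    exact zero_ne_one huv'
  have hv1 : Iso h (h (T u) (T v) • T v) := hTv.smul hh hs0
  have huv1 : h (T u) (h (T u) (T v) • T v) = 1 := by
    rw [hh.smul_right, mul_comm]
    exact huv'
  obtain ⟨w, hw1, hw2, hw3⟩ := decomp hh hTu hv1 huv1 (T (act h u v))
  have hw0 : w = 0 := by
    apply eq_zero_of_perp hh hstar hdim hTu hv1 huv1 hw1 hw2
    intro y hy h1 h2
    have h3 : h y (T v) = 0 := by
      rw [hh.smul_right, mul_eq_zero, star_eq_zero] at h2
      exact h2.resolve_left hs0
    have h4 := hxy' y hy h1 h3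
    rw [hw3, hh.add_right, hh.add_right, hh.smul_right _ y (T u),
      hh.smul_right _ y (h (T u) (T v) • T v), h1, h2, mul_zero, mul_zero, zero_add, zero_add] at h4
    exact h4
  rw [hw0, add_zero, smul_smul] at hw3
  exact uniq_plane hh hTu hTv hTx huv' hxu' hxv' ⟨_, _, hw3⟩

end Pool.Agent.Helper81.UT
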