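import Pool.Agent.Helper81.UT.NbA
import Pool.Agent.Helper81.UT.NbB
import Pool.Agent.Helper81.UT.NbD
import Pool.Agent.Helper81.UT.Uni
import Pool.Agent.Helper81.UT.Sep

/-!
# Block UT-CO: the core theorem

`rigid_three`: let `x = act h u v`. `T x` is a neighbour of `T u` and `T v` (`nm (h x u) = nm (h x v) = 1`,
`one`). Choose norm one factors: `v₁ = m T v`, `x₁ = n T x` with `h (T u) v₁ = 1`, `h v₁ x₁ = 1`, `g = h (T u) x₁`,
`nm g = 1`. If `trc g = 0` then `g = 1` and, for the pair `T u`, `v₁`, `decomp` gives `x₁ = T u + v₁ + w`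
(the coefficients are `h x₁ v₁ = 1`, `h x₁ (T u) = 1`), `h w w = 0`, `w = 0` by `iso_zero_three`, so
`x₁ = act h (T u) v₁` and we are done. If `trc g ≠ 0` then `NB0 K` is a proper subset of
`NB h (T u) v₁ x₁ = NB h (T u) (T v) (T x)` (`nb_subset`, `nb_ne`, `nb_congr`), so its (finite) cardinality is
larger than that of `NB0 K = NB h u v x` (`nb_act`), but by `nb_le` for `T'` (`LT.symm`, `nb_congr`, `left`) it is at
most that of `NB h (T' (T u)) (T' (T v)) (T' (T x)) = NB h u v x`.
`core`: if `h u v = 0` both sides are `T v` (`act h u v = v`). If `nm (h u v) = 1`: `rigid_four`, `rigid_three`.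
Otherwise let `y = T (act h u v)`, `y' = act h (T u) (T v)`, `a = T u` and use `sep`: `h y a ≠ 0` because
`h (act h u v) u = h v u ≠ 0` (`perp`). For isotropic `x` with `h x a = 0` or `nm (h x a) = 1` let `z = T' x`
(`T z` is equivalent to `x`), so `h z u = 0` or `nm (h z u) = 1` and `T (act h u z)` is equivalent to
`act h (T u) (T z)` by the cases already done. The norm of `h x y` is `0` (resp. `1`) iff that of
`h z (act h u v) = h (act h u z) v` is (`h_act`, `act_act`), iff that of
`h (T (act h u z)) (T v) = h (act h (T u) (T z)) (T v) = h (T z) (act h (T u) (T v))` is, up to factors of norm one.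
-/

set_option autoImplicit false

namespace Pool.Agent.Helper81.UT

variable {K V : Type*} [Field K] [Finite K] [CharP K 2] [StarRing K] [AddCommGroup V] [Module K V]
  [FiniteDimensional K V] {h : V → V → K}

omit [Finite K] [CharP K 2] [FiniteDimensional K V] in
private theorem act_nm52 (hh : Herm h) {u v : V} (hu : Iso h u) (hv : Iso h v)
    (huv : nm (h u v) = 1) : nm (h (act h u v) u) = 1 ∧ nm (h (act h u v) v) = 1 := by
  have hvu : h v u = star (h u v) := (hh.symm u v).symm
  constructor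
  · rw [act, hh.add, hh.smul, hu.2, mul_zero, add_zero, hvu, nm_star, huv]
  · have e8 : h u v * star (h u v) = 1 := huv
    rw [act, hh.add, hh.smul, hv.2, zero_add, hvu, mul_comm, e8, nm_one]

omit [Finite K] [FiniteDimensional K V] in
private theorem h_adj52 (hh : Herm h) {u : V} (hu : Iso h u) (z v : V) :
    h z (act h u v) = h (act h u z) v := by
  rw [← h_act hh hu z (act h u v), act_act hh hu]

/-- The case of a norm one representative with trace zero. -/
private theorem plane52 (hh : Herm h) (hstar : ∃ x : K, star x ≠ x)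
    (hdim : Module.finrank K V = 3) {u v x : V} (hu : Iso h u) (hv : Iso h v) (hx : Iso h x)
    (huv : h u v = 1) (hvx : h v x = 1) (hux : h u x = 1) : x = act h u v := by
  obtain ⟨w, hw1, hw2, hw3⟩ := decomp hh hu hv huv x
  have hvu : h v u = 1 := by rw [← hh.symm u v, huv, star_one]
  have hxv : h x v = 1 := by rw [← hh.symm v x, hvx, star_one]
  have hxu : h x u = 1 := by rw [← hh.symm u x, hux, star_one]
  rw [hxv, hxu, one_smul, one_smul] at hw3
  have huw : h u w = 0 := hh.eq_zero_comm.1 hw1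
  have hvw : h v w = 0 := hh.eq_zero_comm.1 hw2
  have hww : h w w = 0 := by
    have h1 := hx.2
    rw [hw3, hh.add, hh.add, hh.add_right, hh.add_right, hh.add_right, hh.add_right, hh.add_right,
      hh.add_right, hu.2, huv, huw, hvu, hv.2, hvw, hw1, hw2] at h1
    have h2 : (1 : K) + 1 = 0 := CharTwo.add_self_eq_zero 1
    linear_combination h1 - h2
  have hw0 : w = 0 := iso_zero_three hh hstar hdim hu hv huv hw1 hw2 hww
  rw [hw3, hw0, add_zero, act, hvu, one_smul, add_comm]

theorem rigid_three (hh : Herm h) (hstar : ∃ x : K, star x ≠ x)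
    (hF : ∃ b : K, star b = b ∧ b ≠ 0 ∧ b ≠ 1) (hdim : Module.finrank K V = 3)
    {T T' : V → V} (hT : LT h T T') {u v : V} (hu : Iso h u) (hv : Iso h v)
    (huv : nm (h u v) = 1) : Eqv K (T (act h u v)) (act h (T u) (T v)) := by
  have hx : Iso h (act h u v) := act_iso hh hu hv
  obtain ⟨hxu, hxv⟩ := act_nm52 hh hu hv huv
  have hTu := hT.iso u hu
  have hTv := hT.iso v hv
  have hTx := hT.iso _ hx
  have huv' := (hT.one u v hu hv).2 huv
  have hxu' := (hT.one _ u hx hu).2 hxu
  have hxv' := (hT.one _ v hx hv).2 hxv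
  have ev : Eqv K (T v) (h (T u) (T v) • T v) := ⟨_, huv', rfl⟩
  have hv1 : Iso h (h (T u) (T v) • T v) := hTv.congr hh ev
  have huv1 : h (T u) (h (T u) (T v) • T v) = 1 := by
    rw [hh.smul_right, mul_comm]
    exact huv'
  generalize h (T u) (T v) • T v = v₁ at ev hv1 huv1
  have hn : nm (h v₁ (T (act h u v))) = 1 := by
    rw [hh.nm_congr ev (Eqv.refl (T (act h u v))), hh.nm_comm]
    exact hxv'
  have ex : Eqv K (T (act h u v)) (h v₁ (T (act h u v)) • T (act h u v)) := ⟨_, hn, rfl⟩
  have hx1 : Iso h (h v₁ (T (act h u v)) • T (act h u v)) := hTx.congr hh ex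
  have hvx1 : h v₁ (h v₁ (T (act h u v)) • T (act h u v)) = 1 := by
    rw [hh.smul_right, mul_comm]
    exact hn
  generalize h v₁ (T (act h u v)) • T (act h u v) = x₁ at ex hx1 hvx1
  have hg : nm (h (T u) x₁) = 1 := by
    rw [hh.nm_congr (Eqv.refl (T u)) ex, hh.nm_comm]
    exact hxu'
  by_cases hgt : trc (h (T u) x₁) = 0
  · have h1 : h (T u) x₁ = 1 := fixed_norm_one (trc_eq_zero.1 hgt) hg
    have h2 : x₁ = act h (T u) v₁ := plane52 hh hstar hdim hTu hv1 hx1 huv1 hvx1 h1
    refine ex.trans ?_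
    rw [h2]
    exact act_congr hh (Eqv.refl (T u)) ev.symm
  · exfalso
    have s1 := nb_subset hh hstar hTu hv1 hx1 huv1 hvx1 rfl hg hgt
    obtain ⟨p, hp1, hp2⟩ := nb_ne hh hstar hF hTu hv1 hx1 huv1 hvx1 rfl hg hgt
    have s2 : NB h (T u) (T v) (T (act h u v)) = NB h (T u) v₁ x₁ :=
      nb_congr hh (Eqv.refl (T u)) ev ex
    have s3 : NB h u v (act h u v) = NB0 K := nb_act hh hstar hdim.ge hu hv huv
    have s4 : NB h (T' (T u)) (T' (T v)) (T' (T (act h u v))) = NB h u v (act h u v) :=
      nb_congr hh (hT.left u hu) (hT.left v hv) (hT.left _ hx)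
    have s5 := nb_le hh hstar hdim (hT.symm hh) hTu hTv hTx
    rw [s4, s3, s2, Nat.card_coe_set_eq, Nat.card_coe_set_eq] at s5
    have s6 : NB0 K ⊂ NB h (T u) v₁ x₁ := ⟨s1, fun hc => hp2 (hc hp1)⟩
    exact absurd (Set.ncard_lt_ncard s6 (Set.toFinite _)) (not_lt.2 s5)

theorem core (hh : Herm h) (hstar : ∃ x : K, star x ≠ x) (hdim : 3 ≤ Module.finrank K V)
    (hF : Module.finrank K V = 3 → ∃ b : K, star b = b ∧ b ≠ 0 ∧ b ≠ 1)
    {T T' : V → V} (hT : LT h T T') {u v : V} (hu : Iso h u) (hv : Iso h v) :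
    Eqv K (T (act h u v)) (act h (T u) (T v)) := by
  have hone : ∀ v, Iso h v → nm (h u v) = 1 →
      Eqv K (T (act h u v)) (act h (T u) (T v)) := by
    intro v hv huv
    rcases Nat.lt_or_ge 3 (Module.finrank K V) with h4 | h4
    · exact rigid_four hh hstar h4 hT hu hv huv
    · have h3 : Module.finrank K V = 3 := le_antisymm h4 hdim
      exact rigid_three hh hstar (hF h3) h3 hT hu hv huv
  have hzero : ∀ v, Iso h v → h u v = 0 →
      Eqv K (T (act h u v)) (act h (T u) (T v)) := by
    intro v hv huv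
    have h1 : act h u v = v := by
      rw [act, hh.eq_zero_comm.1 huv, zero_smul, add_zero]
    have h2 : act h (T u) (T v) = T v := by
      rw [act, hh.eq_zero_comm.1 ((hT.perp u v hu hv).2 huv), zero_smul, add_zero]
    rw [h1, h2]
    exact Eqv.refl _
  by_cases h0 : h u v = 0
  · exact hzero v hv h0
  have hTu := hT.iso u hu
  have hTv := hT.iso v hv
  have hy0 : Iso h (act h u v) := act_iso hh hu hv
  refine sep hh hstar hTu (hT.iso _ hy0) (act_iso hh hTu hTv) ?_ ?_
  · rw [Ne, hT.perp _ _ hy0 hu, act, hh.add, hh.smul, hu.2, mul_zero, add_zero]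
    exact fun h1 => h0 (hh.eq_zero_comm.1 h1)
  · intro x hx hxa
    have hz := hT.iso' x hx
    have ez : Eqv K (T (T' x)) x := hT.right x hx
    have key : Eqv K (T (act h u (T' x))) (act h (T u) (T (T' x))) := by
      rcases hxa with hxa | hxa
      · apply hzero _ hz
        rw [hh.eq_zero_comm, ← hT.perp _ _ hz hu]
        exact (hh.zero_congr ez (Eqv.refl (T u))).1 hxa
      · apply hone _ hz
        rw [hh.nm_comm, ← hT.one _ _ hz hu, ← hh.nm_congr ez (Eqv.refl (T u))]
        exact hxa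
    have hz1 : Iso h (act h u (T' x)) := act_iso hh hu hz
    constructor
    · rw [hh.zero_congr ez (Eqv.refl (T (act h u v))), hT.perp _ _ hz hy0, h_adj52 hh hu,
        ← hT.perp _ _ hz1 hv, ← hh.zero_congr key (Eqv.refl (T v)), ← h_adj52 hh hTu,
        hh.zero_congr ez (Eqv.refl (act h (T u) (T v)))]
    · rw [hh.nm_congr ez (Eqv.refl (T (act h u v))), hT.one _ _ hz hy0, h_adj52 hh hu,
        ← hT.one _ _ hz1 hv, ← hh.nm_congr key (Eqv.refl (T v)), ← h_adj52 hh hTu,
        hh.nm_congr ez (Eqv.refl (act h (T u) (T v)))]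

end Pool.Agent.Helper81.UT
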