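import Mathlib

/-!
# Project UT (MP_0d9fdb_al): the coloured graph of the unitary transvections in characteristic two

`K` is a finite field of characteristic two with a non trivial involution `star` (so `K = F_{q²}`,
`star x = x ^ q`, the elements with `star x = x` form `F_q`), `nm x = x * star x`, `trc x = x + star x`.
`Herm h`: `h` is a nondegenerate hermitian form on `V`. `Iso h u`: `u` is a nonzero isotropic vector.
`act h u` is the transvection `x ↦ x + h x u • u`; two isotropic vectors give the same transvection iff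
they are equal up to a scalar of norm one, `Eqv K u v`. The product of the transvections of `u`, `v`
has order two iff they are different and `h u v = 0`, and order three iff `nm (h u v) = 1`.
`LT h T T'`: `T`, `T'` are the lifts of two mutually inverse permutations of the isotropic vectors up
to norm one which preserve these two relations.
-/

set_option autoImplicit false

namespace Pool.Agent.Helper81.UT

section field

variable {K : Type*} [Field K] [StarRing K]

/-- The norm. -/
def nm (x : K) : K := x * star x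

/-- The trace. -/
def trc (x : K) : K := x + star x

/-- There is an element of trace `S` and norm `M`. -/
def Sol (S M : K) : Prop := ∃ z : K, trc z = S ∧ nm z = M

end field

variable {K V : Type*} [Field K] [StarRing K] [AddCommGroup V] [Module K V]

/-- `h` is a nondegenerate hermitian form. -/
structure Herm (h : V → V → K) : Prop where
  add : ∀ x y z, h (x + y) z = h x z + h y z
  smul : ∀ (c : K) (x y), h (c • x) y = c * h x y
  symm : ∀ x y, star (h x y) = h y x
  nondeg : ∀ x, (∀ y, h x y = 0) → x = 0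

/-- Nonzero isotropic vectors. -/
def Iso (h : V → V → K) (u : V) : Prop := u ≠ 0 ∧ h u u = 0

/-- The transvection of `u`. -/
def act (h : V → V → K) (u x : V) : V := x + h x u • u

variable (K) in
/-- Equality up to a scalar of norm one. -/
def Eqv (x y : V) : Prop := ∃ m : K, nm m = 1 ∧ y = m • x

/-- `T` and `T'` lift mutually inverse permutations of the isotropic vectors up to norm one which
preserve the two relations. -/
structure LT (h : V → V → K) (T T' : V → V) : Prop where
  iso : ∀ u, Iso h u → Iso h (T u)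
  iso' : ∀ u, Iso h u → Iso h (T' u)
  eqv : ∀ u v, Iso h u → Iso h v → (Eqv K (T u) (T v) ↔ Eqv K u v)
  left : ∀ u, Iso h u → Eqv K (T' (T u)) u
  right : ∀ u, Iso h u → Eqv K (T (T' u)) u
  perp : ∀ u v, Iso h u → Iso h v → (h (T u) (T v) = 0 ↔ h u v = 0)
  one : ∀ u v, Iso h u → Iso h v → (nm (h (T u) (T v)) = 1 ↔ nm (h u v) = 1)

/-- The `(a, b, c)`, nonzero and fixed by `star`, such that the multiples `a u`, `b v`, `c x` have a
common neighbour. -/
def NB (h : V → V → K) (u v x : V) : Set (K × K × K) :=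
  {p | (star p.1 = p.1 ∧ p.1 ≠ 0) ∧ (star p.2.1 = p.2.1 ∧ p.2.1 ≠ 0) ∧
    (star p.2.2 = p.2.2 ∧ p.2.2 ≠ 0) ∧ ∃ s, Iso h s ∧ nm (h s (p.1 • u)) = 1 ∧
      nm (h s (p.2.1 • v)) = 1 ∧ nm (h s (p.2.2 • x)) = 1}

variable (K) in
/-- The set `NB` for three collinear points. -/
def NB0 : Set (K × K × K) :=
  {p | (star p.1 = p.1 ∧ p.1 ≠ 0) ∧ (star p.2.1 = p.2.1 ∧ p.2.1 ≠ 0) ∧
    (star p.2.2 = p.2.2 ∧ p.2.2 ≠ 0) ∧
      Sol ((p.1⁻¹ + p.2.1⁻¹ + p.2.2⁻¹) ^ 2) ((p.1⁻¹ * p.2.1⁻¹) ^ 2)}

/-! ### Basic facts -/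

section basic

theorem star_nm (x : K) : star (nm x) = nm x := by
  rw [nm, star_mul, star_star]

theorem star_trc (x : K) : star (trc x) = trc x := by
  rw [trc, star_add, star_star, add_comm]

theorem nm_mul (x y : K) : nm (x * y) = nm x * nm y := by
  rw [nm, nm, nm, star_mul]
  ring

theorem nm_star (x : K) : nm (star x) = nm x := by
  rw [nm, nm, star_star, mul_comm]

theorem nm_zero : nm (0 : K) = 0 := by rw [nm, zero_mul]

theorem nm_one : nm (1 : K) = 1 := by rw [nm, star_one, mul_one]

theorem nm_eq_zero {x : K} : nm x = 0 ↔ x = 0 := by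
  rw [nm, mul_eq_zero, star_eq_zero, or_self]

theorem nm_inv (x : K) : nm x⁻¹ = (nm x)⁻¹ := by
  rw [nm, nm, star_inv₀, mul_inv]

variable {h : V → V → K}

theorem Herm.add_right (hh : Herm h) (x y z : V) : h x (y + z) = h x y + h x z := by
  rw [← hh.symm, hh.add, star_add, hh.symm, hh.symm]

theorem Herm.smul_right (hh : Herm h) (c : K) (x y : V) : h x (c • y) = star c * h x y := by
  rw [← hh.symm, hh.smul, star_mul, hh.symm, mul_comm]

theorem Herm.zero_left (hh : Herm h) (x : V) : h 0 x = 0 := by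
  rw [← zero_smul K (0 : V), hh.smul, zero_mul]

theorem Herm.zero_right (hh : Herm h) (x : V) : h x 0 = 0 := by
  rw [← hh.symm, hh.zero_left, star_zero]

theorem Herm.neg_left (hh : Herm h) (x y : V) : h (-x) y = -h x y := by
  rw [← neg_one_smul K x, hh.smul, neg_one_mul]

theorem Herm.self (hh : Herm h) (x : V) : star (h x x) = h x x := hh.symm x x

theorem Herm.eq_zero_comm (hh : Herm h) {x y : V} : h x y = 0 ↔ h y x = 0 := by
  rw [← hh.symm y x, star_eq_zero]

theorem Herm.nm_comm (hh : Herm h) (x y : V) : nm (h x y) = nm (h y x) := by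
  rw [← hh.symm y x, nm_star]

theorem Eqv.refl (x : V) : Eqv K x x := ⟨1, nm_one, (one_smul K x).symm⟩

theorem Eqv.symm {x y : V} (e : Eqv K x y) : Eqv K y x := by
  obtain ⟨m, hm, rfl⟩ := e
  have hm0 : m ≠ 0 := by
    rintro rfl
    rw [nm_zero] at hm
    exact zero_ne_one hm
  refine ⟨m⁻¹, by rw [nm_inv, hm, inv_one], ?_⟩
  rw [smul_smul, inv_mul_cancel₀ hm0, one_smul]

theorem Eqv.trans {x y z : V} (e : Eqv K x y) (f : Eqv K y z) : Eqv K x z := by
  obtain ⟨m, hm, rfl⟩ := e
  obtain ⟨n, hn, rfl⟩ := f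
  exact ⟨n * m, by rw [nm_mul, hn, hm, mul_one], by rw [smul_smul]⟩

/-- The norms of the values of `h` do not change in the classes. -/
theorem Herm.nm_congr (hh : Herm h) {x y x' y' : V} (e : Eqv K x x') (f : Eqv K y y') :
    nm (h x' y') = nm (h x y) := by
  obtain ⟨m, hm, rfl⟩ := e
  obtain ⟨n, hn, rfl⟩ := f
  rw [hh.smul, hh.smul_right, nm_mul, nm_mul, nm_star, hm, hn, one_mul, one_mul]

theorem Herm.zero_congr (hh : Herm h) {x y x' y' : V} (e : Eqv K x x') (f : Eqv K y y') :
    h x' y' = 0 ↔ h x y = 0 := by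
  rw [← nm_eq_zero, hh.nm_congr e f, nm_eq_zero]

theorem Iso.congr (hh : Herm h) {x y : V} (hx : Iso h x) (e : Eqv K x y) : Iso h y := by
  refine ⟨?_, (hh.zero_congr e e).2 hx.2⟩
  obtain ⟨m, hm, rfl⟩ := e
  have hm0 : m ≠ 0 := by
    rintro rfl
    rw [nm_zero] at hm
    exact zero_ne_one hm
  exact smul_ne_zero hm0 hx.1

theorem Iso.smul (hh : Herm h) {x : V} (hx : Iso h x) {c : K} (hc : c ≠ 0) : Iso h (c • x) := by
  refine ⟨smul_ne_zero hc hx.1, ?_⟩
  rw [hh.smul, hh.smul_right, hx.2, mul_zero, mul_zero]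

/-- `act` respects the classes. -/
theorem act_congr (hh : Herm h) {u x u' x' : V} (e : Eqv K u u') (f : Eqv K x x') :
    Eqv K (act h u x) (act h u' x') := by
  obtain ⟨m, hm, rfl⟩ := e
  obtain ⟨n, hn, rfl⟩ := f
  refine ⟨n, hn, ?_⟩
  rw [act, act, hh.smul, hh.smul_right, smul_add, smul_smul, smul_smul]
  congr 2
  rw [nm] at hm
  linear_combination (n * h x u) * hm

variable [CharP K 2]

/-- `h (act u x) (act u y) = h x y`. -/
theorem h_act (hh : Herm h) {u : V} (hu : Iso h u) (x y : V) :
    h (act h u x) (act h u y) = h x y := by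
  rw [act, act, hh.add, hh.add_right, hh.add_right, hh.smul, hh.smul_right, hh.smul, hh.smul_right,
    hu.2, hh.symm, mul_zero, mul_zero, add_zero]
  have : h y u = star (h u y) := (hh.symm u y).symm
  rw [add_assoc, mul_comm (h u y) (h x u)]
  exact (add_eq_left).2 (CharTwo.add_self_eq_zero _)

theorem act_act (hh : Herm h) {u : V} (hu : Iso h u) (x : V) : act h u (act h u x) = x := by
  have h2 : (2 : K) = 0 := CharTwo.two_eq_zero
  have h3 : h (x + h x u • u) u = h x u := by
    rw [hh.add, hh.smul, hu.2, mul_zero, add_zero]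
  rw [act, act, h3, add_assoc, ← add_smul, CharTwo.add_self_eq_zero, zero_smul, add_zero]

theorem act_iso (hh : Herm h) {u x : V} (hu : Iso h u) (hx : Iso h x) : Iso h (act h u x) := by
  refine ⟨fun h0 => hx.1 ?_, by rw [h_act hh hu, hx.2]⟩
  rw [← act_act hh hu x, h0, act, hh.zero_left, zero_smul, add_zero]

end basic

end Pool.Agent.Helper81.UT
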