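import Pool.Agent.Helper81.UT.Pair

/-!
# Block UT-VC: dimension three and dimension at least four

`W` is the space orthogonal to the hyperbolic pair `u`, `v` (`decomp`: `V = K u + K v + W`, so `dim W` is
`dim V - 2`). `iso_zero_three`: `dim W = 1`, `W = K e` with `h e e ≠ 0` (`exists_aniso`), so `w = c e`,
`0 = h w w = nm c * h e e`. `same_point`: `exists_pair` for `u`, `decomp` of `v`: the coefficient of the
partner is `h v u = 0`, so `v = a u + w`, `h w w = 0`, `w = 0`. `eq_zero_of_perp`: let `w ≠ 0`. If `h w w = 0`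
then `y = w + ...`: as in `exists_pair` (inside `W`: `nondeg` and `decomp` give `z ∈ W` with `h z w ≠ 0`, and
`y = z + c w` is isotropic for a suitable `c`) there is an isotropic `y ∈ W` with `h y w ≠ 0`. If
`h w w ≠ 0`: there is `f ∈ W`, `f ⊥ w`, `h f f ≠ 0` (`dim W ≥ 2`, so there is `z ≠ 0` in `W` orthogonal to `w`;
`exists_not_perp` gives `e ∈ W` with `h e e ≠ 0`, `h e z ≠ 0`; if no vector of `W` orthogonal to `w` had
nonzero norm then, for `x, y` in this space, `trc (c h x y) = 0` for all `c`, so `h x y = 0`; but `z` is not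
orthogonal to all of `W`, and hence not to all vectors of `W` orthogonal to `w`, because
`x - (h x w / h w w) w` is orthogonal to `w` and has the same product with `z`), and `y = w + c f` with
`nm c = h w w / h f f` is isotropic with `h y w = h w w ≠ 0`.
-/

set_option autoImplicit false

namespace Pool.Agent.Helper81.UT

variable {K V : Type*} [Field K] [Finite K] [CharP K 2] [StarRing K] [AddCommGroup V] [Module K V]
  [FiniteDimensional K V] {h : V → V → K}

omit [Finite K] [CharP K 2] [FiniteDimensional K V] in
private theorem h_vu92 (hh : Herm h) {u v : V} (huv : h u v = 1) : h v u = 1 := by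
  rw [← hh.symm u v, huv, star_one]

theorem iso_zero_three (hh : Herm h) (hstar : ∃ x : K, star x ≠ x)
    (hdim : Module.finrank K V = 3) {u v w : V} (hu : Iso h u) (hv : Iso h v) (huv : h u v = 1)
    (hwu : h w u = 0) (hwv : h w v = 0) (hww : h w w = 0) : w = 0 := by
  by_contra hw
  obtain ⟨e, heu, hev, hee, hew⟩ := exists_not_perp hh hstar hu hv huv hwu hwv hw
  have hvu := h_vu92 hh huv
  have huw : h u w = 0 := hh.eq_zero_comm.1 hwu
  have hvw : h v w = 0 := hh.eq_zero_comm.1 hwv
  have hli : LinearIndependent K ![u, v, w, e] := by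
    rw [Fintype.linearIndependent_iff]
    intro g hg
    rw [Fin.sum_univ_four] at hg
    simp only [Matrix.cons_val_zero, Matrix.cons_val_one, Matrix.cons_val] at hg
    have key : ∀ x : V, g 0 * h u x + g 1 * h v x + g 2 * h w x + g 3 * h e x = 0 := by
      intro x
      rw [← hh.smul, ← hh.smul, ← hh.smul, ← hh.smul, ← hh.add, ← hh.add, ← hh.add, hg, hh.zero_left]
    have k0 : g 0 = 0 := by
      have := key v
      rw [huv, hv.2, hwv, hev] at this
      simpa using this
    have k1 : g 1 = 0 := by
      have := key u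
      rw [hu.2, hvu, hwu, heu] at this
      simpa using this
    have k3 : g 3 = 0 := by
      have := key w
      rw [huw, hvw, hww] at this
      have h5 : g 3 * h e w = 0 := by simpa using this
      exact (mul_eq_zero.1 h5).resolve_right hew
    have k2 : g 2 = 0 := by
      rw [k0, k1, k3, zero_smul, zero_smul, zero_smul, zero_add, zero_add, add_zero] at hg
      exact (smul_eq_zero.1 hg).resolve_right hw
    intro i
    fin_cases i
    · exact k0
    · exact k1
    · exact k2
    · exact k3
  have hcard := hli.fintype_card_le_finrank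
  rw [Fintype.card_fin, hdim] at hcard
  omega

theorem same_point (hh : Herm h) (hstar : ∃ x : K, star x ≠ x) (hdim : Module.finrank K V = 3)
    {u v : V} (hu : Iso h u) (hv : Iso h v) (huv : h u v = 0) : ∃ c : K, v = c • u := by
  obtain ⟨u', hu', huu'⟩ := exists_pair hh hstar hu
  obtain ⟨w, hwu, hwu', hx⟩ := decomp hh hu hu' huu' v
  have hvu : h v u = 0 := hh.eq_zero_comm.1 huv
  have huw : h u w = 0 := hh.eq_zero_comm.1 hwu
  rw [hvu, zero_smul, add_zero] at hx
  have hww : h w w = 0 := by
    have h1 := hv.2
    rw [hx, hh.add, hh.add_right, hh.add_right, hh.smul, hh.smul, hh.smul_right, hh.smul_right, hu.2, huw,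
      hwu] at h1
    simpa using h1
  have hw0 := iso_zero_three hh hstar hdim hu hu' huu' hwu hwu' hww
  rw [hw0, add_zero] at hx
  exact ⟨h v u', hx⟩

omit [Finite K] [CharP K 2] [FiniteDimensional K V] in
/-- The norm of `e + c w`. -/
private theorem norm_add92 (hh : Herm h) (e w : V) (c : K) :
    h (e + c • w) (e + c • w) = h e e + trc (c * h w e) + nm c * h w w := by
  rw [hh.add, hh.add_right, hh.add_right, hh.smul, hh.smul, hh.smul_right, hh.smul_right, trc, nm, star_mul,
    hh.symm w e]
  ring

omit [FiniteDimensional K V] in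
private theorem exists_coef92 (hstar : ∃ x : K, star x ≠ x) {s d : K} (hs : star s = s) (hd : d ≠ 0) :
    ∃ c : K, trc (c * d) = s := by
  obtain ⟨x, hx⟩ := trc_surj hstar hs
  exact ⟨x / d, by rw [div_mul_cancel₀ x hd, hx]⟩

theorem eq_zero_of_perp (hh : Herm h) (hstar : ∃ x : K, star x ≠ x)
    (hdim : 4 ≤ Module.finrank K V) {u v w : V} (hu : Iso h u) (hv : Iso h v) (huv : h u v = 1)
    (hwu : h w u = 0) (hwv : h w v = 0)
    (hw : ∀ y, Iso h y → h y u = 0 → h y v = 0 → h y w = 0) : w = 0 := by
  have h2 : (2 : K) = 0 := CharTwo.two_eq_zero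
  by_contra hw0
  -- it suffices to find an isotropic vector
  have fin : ∀ y, h y y = 0 → h y u = 0 → h y v = 0 → h y w ≠ 0 → False := by
    intro y h1 h3 h4 h5
    refine h5 (hw y ⟨?_, h1⟩ h3 h4)
    rintro rfl
    exact h5 (hh.zero_left w)
  by_cases hww : h w w = 0
  · obtain ⟨e, heu, hev, hee, hew⟩ := exists_not_perp hh hstar hu hv huv hwu hwv hw0
    have hwe : h w e ≠ 0 := fun h0 => hew (hh.eq_zero_comm.1 h0)
    obtain ⟨c, hc⟩ := exists_coef92 hstar (hh.self e) hwe
    apply fin (e + c • w)
    · rw [norm_add92 hh, hc, hww, mul_zero, add_zero]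
      linear_combination (h e e) * h2
    · rw [hh.add, hh.smul, heu, hwu, mul_zero, add_zero]
    · rw [hh.add, hh.smul, hev, hwv, mul_zero, add_zero]
    · rw [hh.add, hh.smul, hww, mul_zero, add_zero]
      exact hew
  · -- a vector orthogonal to `u`, `v`, `w`
    have hz : ∃ z : V, z ≠ 0 ∧ h z u = 0 ∧ h z v = 0 ∧ h z w = 0 := by
      let φ : V →ₗ[K] (Fin 3 → K) :=
        { toFun := fun x => ![h x u, h x v, h x w]
          map_add' := by
            intro x y
            ext i
            fin_cases i <;> simp [hh.add]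
          map_smul' := by
            intro c x
            ext i
            fin_cases i <;> simp [hh.smul] }
      have h1 : ¬ Function.Injective φ := by
        intro hinj
        have h5 := LinearMap.finrank_le_finrank_of_injective hinj
        rw [Module.finrank_fintype_fun_eq_card, Fintype.card_fin] at h5
        omega
      rw [← LinearMap.ker_eq_bot, Submodule.eq_bot_iff] at h1
      push Not at h1
      obtain ⟨z, hz, hz0⟩ := h1
      have h3 : φ z = 0 := hz
      exact ⟨z, hz0, congrFun h3 0, congrFun h3 1, congrFun h3 2⟩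
    obtain ⟨z, hz0, hzu, hzv, hzw⟩ := hz
    have hf : ∃ f : V, h f u = 0 ∧ h f v = 0 ∧ h f w = 0 ∧ h f f ≠ 0 := by
      by_cases hzz : h z z = 0
      · obtain ⟨e, heu, hev, hee, hez⟩ := exists_not_perp hh hstar hu hv huv hzu hzv hz0
        have hwz : h w z = 0 := hh.eq_zero_comm.1 hzw
        obtain ⟨e', he'⟩ : ∃ e' : V, e' = e + (h e w / h w w) • w := ⟨_, rfl⟩
        have f1 : h e' u = 0 := by rw [he', hh.add, hh.smul, heu, hwu, mul_zero, add_zero]
        have f2 : h e' v = 0 := by rw [he', hh.add, hh.smul, hev, hwv, mul_zero, add_zero]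
        have f3 : h e' w = 0 := by
          rw [he', hh.add, hh.smul, div_mul_cancel₀ _ hww]
          linear_combination (h e w) * h2
        have f4 : h e' z ≠ 0 := by
          rw [he', hh.add, hh.smul, hwz, mul_zero, add_zero]
          exact hez
        have f5 : h z e' ≠ 0 := fun h0 => f4 (hh.eq_zero_comm.1 h0)
        have f6 : star (1 + h e' e') = 1 + h e' e' := by rw [star_add, star_one, hh.self]
        obtain ⟨c, hc⟩ := exists_coef92 hstar f6 f5
        refine ⟨e' + c • z, ?_, ?_, ?_, ?_⟩
        · rw [hh.add, hh.smul, f1, hzu, mul_zero, add_zero]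
        · rw [hh.add, hh.smul, f2, hzv, mul_zero, add_zero]
        · rw [hh.add, hh.smul, f3, hzw, mul_zero, add_zero]
        · rw [norm_add92 hh, hc, hzz, mul_zero, add_zero]
          have h7 : h e' e' + (1 + h e' e') = 1 := by linear_combination (h e' e') * h2
          rw [h7]
          exact one_ne_zero
      · exact ⟨z, hzu, hzv, hzw, hzz⟩
    obtain ⟨f, hfu, hfv, hfw, hff⟩ := hf
    have hwf : h w f = 0 := hh.eq_zero_comm.1 hfw
    have hs : star (h w w / h f f) = h w w / h f f := by
      rw [star_div₀, hh.self, hh.self]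
    obtain ⟨c, hc⟩ := nm_surj hs
    apply fin (w + c • f)
    · rw [norm_add92 hh, hc, hfw, mul_zero, trc, star_zero, add_zero, add_zero, div_mul_cancel₀ _ hff]
      linear_combination (h w w) * h2
    · rw [hh.add, hh.smul, hwu, hfu, mul_zero, add_zero]
    · rw [hh.add, hh.smul, hwv, hfv, mul_zero, add_zero]
    · rw [hh.add, hh.smul, hfw, mul_zero, add_zero]
      exact hww

end Pool.Agent.Helper81.UT
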