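import Pool.Agent.Helper81.UT.Defs

/-!
# Block UT-FA: the field with involution

`K` is finite of characteristic two, so every element is a square (`frobenius` is bijective on a finite
field), and square roots are unique: `r * r = s`, `star s = s` give `star r * star r = r * r`, `star r = r`.
`nm_surj`: the square root `r` of `s` has `nm r = r * r = s`. `trc_surj`: if `star x ≠ x` then
`t = trc x ≠ 0` and `trc (s / t * x) = s`. `three_units`: if `star x ≠ x`, the elements
`x / star x` and `(x + 1) / star (x + 1)` have norm one, are different and different from `1`.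
-/

set_option autoImplicit false

namespace Pool.Agent.Helper81.UT

variable {K : Type*} [Field K] [Finite K] [CharP K 2] [StarRing K]

theorem exists_sqrt {s : K} (hs : star s = s) : ∃ r : K, star r = r ∧ r * r = s := by
  obtain ⟨r, hr⟩ := (bijective_frobenius K 2).2 s
  rw [frobenius_def, sq] at hr
  refine ⟨r, ?_, hr⟩
  apply frobenius_inj K 2
  rw [frobenius_def, frobenius_def, sq, sq, ← star_mul, hr, hs]

theorem nm_surj {s : K} (hs : star s = s) : ∃ x : K, nm x = s := by
  obtain ⟨r, h1, h2⟩ := exists_sqrt hs
  exact ⟨r, by rw [nm, h1, h2]⟩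

theorem trc_eq_zero {x : K} : trc x = 0 ↔ star x = x := by
  rw [trc, CharTwo.add_eq_zero, eq_comm]

theorem trc_surj (hstar : ∃ x : K, star x ≠ x) {s : K} (hs : star s = s) : ∃ x : K, trc x = s := by
  obtain ⟨x, hx⟩ := hstar
  have ht : trc x ≠ 0 := fun h => hx (trc_eq_zero.1 h)
  refine ⟨s / trc x * x, ?_⟩
  have h1 : star (s / trc x * x) = s / trc x * star x := by
    rw [star_mul, star_div₀, hs, star_trc, mul_comm]
  have h2 : trc (s / trc x * x) = s / trc x * x + s / trc x * star x := by
    rw [trc, h1]
  rw [h2, ← mul_add]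
  exact div_mul_cancel₀ s ht

theorem three_units (hstar : ∃ x : K, star x ≠ x) :
    ∃ m n : K, nm m = 1 ∧ nm n = 1 ∧ m ≠ 1 ∧ n ≠ 1 ∧ m ≠ n := by
  have key : ∀ y : K, star y ≠ y → nm (y / star y) = 1 ∧ y / star y ≠ 1 := by
    intro y hy
    have hy0 : y ≠ 0 := by
      rintro rfl
      exact hy (star_zero K)
    have hy1 : star y ≠ 0 := fun h => hy0 (star_eq_zero.1 h)
    constructor
    · rw [nm, star_div₀, star_star]
      field_simp
    · intro h
      exact hy ((div_eq_one_iff_eq hy1).1 h).symm
  obtain ⟨x, hx⟩ := hstar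
  have hx' : star (x + 1) ≠ x + 1 := by
    rw [star_add, star_one]
    exact fun h => hx (add_right_cancel h)
  refine ⟨x / star x, (x + 1) / star (x + 1), (key x hx).1, (key _ hx').1, (key x hx).2,
    (key _ hx').2, ?_⟩
  intro h
  have hx0 : star x ≠ 0 := by
    intro h0
    apply hx
    rw [h0, star_eq_zero.1 h0]
  have hx1 : star (x + 1) ≠ 0 := by
    intro h0
    apply hx'
    rw [h0, star_eq_zero.1 h0]
  rw [div_eq_div_iff hx0 hx1, star_add, star_one, mul_add, add_mul, mul_one, one_mul] at h
  exact hx (add_left_cancel h).symm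

theorem fixed_norm_one {r : K} (hr : star r = r) (h : nm r = 1) : r = 1 := by
  rw [nm, hr, mul_self_eq_one_iff] at h
  rcases h with h | h
  · exact h
  · rw [h, CharTwo.neg_eq]

end Pool.Agent.Helper81.UT
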