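import Pool.Agent.Helper81.UT.Pair
import Pool.Agent.Helper81.UT.Sol

/-!
# Block UT-NA: common neighbours, collinear case

Let `t = h u v`, `nm t = 1`, `x = act h u v = v + h v u • u`. For `s` put `p = h s u`, `q = h s v`; then
`h s x = q + t p`. Write `a, b, c` for the inverses of the three coordinates (fixed by `star`): the
conditions on `s` in `NB` say `nm p = a²`, `nm q = b²`, `nm (q + t p) = c²`. With `z = q * star (t p)`:
`nm z = a² b²`, `nm (q + t p) = a² + b² + trc z`. So `s` in `NB` gives `Sol ((a + b + c)²) ((a b)²)`. Conversely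
let `trc z = (a + b + c)²`, `nm z = (a b)²`. Take `p = a`, `q = z / star (t a)` (`nm q = b²`),
`s = (q / t) u + (p t) v + w` with `w ⊥ u, v` and `h w w = trc z` (`w = g e`, `e` from `exists_aniso` for the
pair `u`, `m v` with `h u (m v) = 1`, `nm g = trc z / h e e` by `nm_surj`). Then `h s s = trc z + h w w = 0`.
-/

set_option autoImplicit false

namespace Pool.Agent.Helper81.UT

variable {K V : Type*} [Field K] [Finite K] [CharP K 2] [StarRing K] [AddCommGroup V] [Module K V]
  [FiniteDimensional K V] {h : V → V → K}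

theorem nb_act (hh : Herm h) (hstar : ∃ x : K, star x ≠ x) (hdim : 3 ≤ Module.finrank K V)
    {u v : V} (hu : Iso h u) (hv : Iso h v) (huv : nm (h u v) = 1) :
    NB h u v (act h u v) = NB0 K := by
  classical
  have h2 : (2 : K) = 0 := CharTwo.two_eq_zero
  obtain ⟨t, ht⟩ : ∃ t, t = h u v := ⟨_, rfl⟩
  have hts : t * star t = 1 := by rw [ht]; exact huv
  have hvu : h v u = star t := by rw [ht, hh.symm]
  have ht0 : t ≠ 0 := by
    rintro h0
    rw [h0, zero_mul] at hts
    exact zero_ne_one hts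
  have hst0 : star t ≠ 0 := star_ne_zero.2 ht0
  -- the value at the third vector
  have hx : ∀ s, h s (act h u v) = h s v + t * h s u := by
    intro s
    rw [act, hh.add_right, hh.smul_right, hvu, star_star]
  ext ⟨a', b', c'⟩
  constructor
  · rintro ⟨⟨ha, ha0⟩, ⟨hb, hb0⟩, ⟨hc, hc0⟩, s, hs, h1, h3, h4⟩
    simp only at ha ha0 hb hb0 hc hc0 h1 h3 h4
    refine ⟨⟨ha, ha0⟩, ⟨hb, hb0⟩, ⟨hc, hc0⟩, ?_⟩
    simp only
    rw [hh.smul_right, ha, nm_mul] at h1
    rw [hh.smul_right, hb, nm_mul] at h3
    rw [hh.smul_right, hc, nm_mul, hx] at h4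
    rw [nm, ha] at h1
    rw [nm, hb] at h3
    rw [nm, hc] at h4
    obtain ⟨p, hp⟩ : ∃ p, p = h s u := ⟨_, rfl⟩
    obtain ⟨q, hq⟩ : ∃ q, q = h s v := ⟨_, rfl⟩
    rw [← hp] at h1 h4
    rw [← hq] at h3 h4
    have e1 : nm p = a'⁻¹ * a'⁻¹ := by
      have := h1
      field_simp
      linear_combination this
    have e2 : nm q = b'⁻¹ * b'⁻¹ := by
      have := h3
      field_simp
      linear_combination this
    have e3 : nm (q + t * p) = c'⁻¹ * c'⁻¹ := by
      have := h4
      field_simp
      linear_combination this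
    refine ⟨q * star (t * p), ?_, ?_⟩
    · rw [nm] at e1 e2 e3
      rw [trc]
      simp only [star_mul, star_add, star_star] at e3 ⊢
      linear_combination e3 - e2 - (t * star t) * e1 - (a'⁻¹ * a'⁻¹) * hts +
        (-(a'⁻¹ * a'⁻¹) - b'⁻¹ * b'⁻¹ - a'⁻¹ * b'⁻¹ - a'⁻¹ * c'⁻¹ - b'⁻¹ * c'⁻¹) * h2
    · have e4 : nm t = 1 := hts
      rw [nm_mul, nm_star, nm_mul, e1, e2, e4]
      ring
  · rintro ⟨⟨ha, ha0⟩, ⟨hb, hb0⟩, ⟨hc, hc0⟩, z, hz1, hz2⟩
    simp only at ha ha0 hb hb0 hc hc0 hz1 hz2
    refine ⟨⟨ha, ha0⟩, ⟨hb, hb0⟩, ⟨hc, hc0⟩, ?_⟩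
    simp only
    obtain ⟨a, haa⟩ : ∃ a, a = a'⁻¹ := ⟨_, rfl⟩
    obtain ⟨b, hbb⟩ : ∃ b, b = b'⁻¹ := ⟨_, rfl⟩
    obtain ⟨c, hcc⟩ : ∃ c, c = c'⁻¹ := ⟨_, rfl⟩
    rw [← haa, ← hbb] at hz2
    rw [← haa, ← hbb, ← hcc] at hz1
    have has : star a = a := by rw [haa, star_inv₀, ha]
    have ha1 : a ≠ 0 := by rw [haa]; exact inv_ne_zero ha0
    have hz2' : z * star z = (a * b) ^ 2 := hz2
    -- the vector `e`
    have hv' : Iso h (t • v) := hv.smul hh ht0
    have huv' : h u (t • v) = 1 := by rw [hh.smul_right, ← ht, mul_comm, hts]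
    obtain ⟨e, heu, hev', hee⟩ := exists_aniso hh hstar hdim hu hv' huv'
    have hev : h e v = 0 := by
      rw [hh.smul_right] at hev'
      rcases mul_eq_zero.1 hev' with h0 | h0
      · exact absurd h0 hst0
      · exact h0
    have hue : h u e = 0 := hh.eq_zero_comm.1 heu
    have hve : h v e = 0 := hh.eq_zero_comm.1 hev
    obtain ⟨g, hg⟩ := nm_surj (s := trc z / h e e) (by rw [star_div₀, hh.self, star_trc])
    have hg' : g * star g * h e e = trc z := by
      have : nm g * h e e = trc z := by rw [hg]; exact div_mul_cancel₀ _ hee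
      exact this
    obtain ⟨q, hq⟩ : ∃ q, q = z / star (t * a) := ⟨_, rfl⟩
    have hqz : q * (star t * a) = z := by
      rw [hq, star_mul, has, mul_comm a]
      exact div_mul_cancel₀ _ (mul_ne_zero hst0 ha1)
    have hqn : q * star q = b * b := by
      have h5 : (q * (star t * a)) * star (q * (star t * a)) = (a * b) ^ 2 := by rw [hqz]; exact hz2'
      simp only [star_mul, star_star, has] at h5
      have h6 : (a * a) * (q * star q) = (a * a) * (b * b) := by
        linear_combination h5 - (q * star q * a * a) * hts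
      exact mul_left_cancel₀ (mul_ne_zero ha1 ha1) h6
    obtain ⟨s, hs⟩ : ∃ s, s = (q * star t) • u + (a * t) • v + g • e := ⟨_, rfl⟩
    have hsu : h s u = a := by
      rw [hs, hh.add, hh.add, hh.smul, hh.smul, hh.smul, hu.2, hvu, heu]
      linear_combination a * hts
    have hsv : h s v = q := by
      rw [hs, hh.add, hh.add, hh.smul, hh.smul, hh.smul, hv.2, ← ht, hev]
      linear_combination q * hts
    have hse : h s e = g * h e e := by
      rw [hs, hh.add, hh.add, hh.smul, hh.smul, hh.smul, hue, hve]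
      ring
    have hss : h s s = 0 := by
      have h5 : ∀ y, h y s = star (q * star t) * h y u + star (a * t) * h y v + star g * h y e := by
        intro y
        rw [hs, hh.add_right, hh.add_right, hh.smul_right, hh.smul_right, hh.smul_right]
      rw [h5 s, hsu, hsv, hse]
      have h6 : star (q * (star t * a)) = star z := by rw [hqz]
      rw [trc] at hg'
      simp only [star_mul, star_star, has] at h6 ⊢
      linear_combination h6 + hqz + hg' + (z + star z) * h2
    refine ⟨s, ⟨?_, hss⟩, ?_, ?_, ?_⟩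
    · intro h0
      rw [h0, hh.zero_left] at hsu
      exact ha1 hsu.symm
    · rw [hh.smul_right, hsu, ha, nm, haa, mul_inv_cancel₀ ha0, star_one, mul_one]
    · rw [hh.smul_right, hsv, hb, nm_mul, nm, nm, hb, hqn, hbb]
      field_simp
    · rw [hh.smul_right, hx, hsu, hsv, hc, nm_mul]
      have h7 : nm (q + t * a) = c * c := by
        have h6 : star (q * (star t * a)) = star z := by rw [hqz]
        rw [nm]
        rw [trc] at hz1
        simp only [star_mul, star_add, star_star, has] at h6 ⊢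
        linear_combination hqn + (a * a) * hts + h6 + hqz + hz1 +
          (a * a + b * b + a * b + a * c + b * c) * h2
      rw [h7, nm, hc, hcc]
      field_simp

end Pool.Agent.Helper81.UT
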