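import Pool.Agent.Helper81.UT.Fld

/-!
# Block UT-VB: isotropic vectors and hyperbolic pairs

`exists_pair`: `nondeg` gives `y` with `h u y ≠ 0`, scale to `h u y = 1`; `v = y + c u` has
`h v v = h y y + trc c` (`trc_surj`). `decomp`: take `w = x - h x v u - h x u v` (`h v u = star 1 = 1`).
`exists_not_perp`: if `h w w ≠ 0` take `e = w`. Otherwise `nondeg` and `decomp` give `z ⊥ u, v` with
`h z w ≠ 0`, and `e = z + c w` has `h e w = h z w`, `h e e = h z z + trc (c h w z)`, choose `c` such that this
is `1`. `exists_aniso`: there is `w ≠ 0` orthogonal to `u`, `v` (dimension), use `exists_not_perp`.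
`exists_iso`: some `e` has `h e e ≠ 0` (otherwise `h x y + h y x = 0` for all `x, y`, that is
`trc (h x y) = 0`, replace `x` by `c x`: contradiction to `trc_surj` and `nondeg`); the same on the space
orthogonal to `e` gives `f ⊥ e` with `h f f ≠ 0`, and `e + c f` is isotropic if `nm c = h e e / h f f`
(`nm_surj`).
-/

set_option autoImplicit false

namespace Pool.Agent.Helper81.UT

variable {K V : Type*} [Field K] [Finite K] [CharP K 2] [StarRing K] [AddCommGroup V] [Module K V]
  [FiniteDimensional K V] {h : V → V → K}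

private theorem exists_notMem56 [DecidableEq V] (S : Finset V) (hS : S.card < Module.finrank K V) :
    ∃ x : V, x ∉ Submodule.span K (S : Set V) := by
  by_contra hcon
  push Not at hcon
  have h1 : Submodule.span K (S : Set V) = ⊤ := by
    rw [eq_top_iff]
    intro x _
    exact hcon x
  have h2 := finrank_span_finset_le_card (R := K) S
  unfold Set.finrank at h2
  rw [h1, finrank_top] at h2
  omega

theorem exists_pair (hh : Herm h) (hstar : ∃ x : K, star x ≠ x) {u : V} (hu : Iso h u) :
    ∃ v, Iso h v ∧ h u v = 1 := by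
  obtain ⟨y, hy⟩ : ∃ y, h u y ≠ 0 := by
    by_contra hcon
    push Not at hcon
    exact hu.1 (hh.nondeg u hcon)
  obtain ⟨y', hy'⟩ : ∃ y', h u y' = 1 := by
    refine ⟨(star (h u y))⁻¹ • y, ?_⟩
    rw [hh.smul_right, star_inv₀, star_star]
    exact inv_mul_cancel₀ hy
  have hy2 : h y' u = 1 := by rw [← hh.symm, hy', star_one]
  obtain ⟨c, hc⟩ := trc_surj hstar (hh.self y')
  have huv : h u (y' + c • u) = 1 := by
    rw [hh.add_right, hh.smul_right, hu.2, mul_zero, add_zero, hy']
  refine ⟨y' + c • u, ⟨?_, ?_⟩, huv⟩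
  · intro h0
    rw [h0, hh.zero_right] at huv
    exact zero_ne_one huv
  · rw [hh.add, hh.smul, huv, hh.add_right, hh.smul_right, hy2, mul_one, mul_one]
    rw [trc] at hc
    rw [add_assoc, add_comm (star c) c, hc]
    exact CharTwo.add_self_eq_zero _

theorem decomp (hh : Herm h) {u v : V} (hu : Iso h u) (hv : Iso h v) (huv : h u v = 1) (x : V) :
    ∃ w, h w u = 0 ∧ h w v = 0 ∧ x = h x v • u + h x u • v + w := by
  have hvu : h v u = 1 := by rw [← hh.symm, huv, star_one]
  refine ⟨x + (-(h x v)) • u + (-(h x u)) • v, ?_, ?_, ?_⟩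
  · rw [hh.add, hh.add, hh.smul, hh.smul, hu.2, hvu]
    ring
  · rw [hh.add, hh.add, hh.smul, hh.smul, hv.2, huv]
    ring
  · module

theorem exists_not_perp (hh : Herm h) (hstar : ∃ x : K, star x ≠ x) {u v w : V} (hu : Iso h u)
    (hv : Iso h v) (huv : h u v = 1) (hwu : h w u = 0) (hwv : h w v = 0) (hw : w ≠ 0) :
    ∃ e, h e u = 0 ∧ h e v = 0 ∧ h e e ≠ 0 ∧ h e w ≠ 0 := by
  by_cases hww : h w w = 0
  · obtain ⟨y, hy⟩ : ∃ y, h w y ≠ 0 := by
      by_contra hcon
      push Not at hcon
      exact hw (hh.nondeg w hcon)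
    obtain ⟨z, hzu, hzv, hz⟩ := decomp hh hu hv huv y
    have hwz : h w z ≠ 0 := by
      intro h0
      apply hy
      rw [hz, hh.add_right, hh.add_right, hh.smul_right, hh.smul_right, hwu, hwv, h0]
      ring
    have hzw : h z w ≠ 0 := fun h0 => hwz (hh.eq_zero_comm.1 h0)
    obtain ⟨t, ht⟩ := trc_surj hstar (s := h z z + 1) (by rw [star_add, star_one, hh.self])
    have hc : t / h w z * h w z = t := div_mul_cancel₀ t hwz
    have hc' : star (t / h w z) * h z w = star t := by
      rw [← hh.symm w z, mul_comm, ← star_mul, hc]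
    refine ⟨z + (t / h w z) • w, ?_, ?_, ?_, ?_⟩
    · rw [hh.add, hh.smul, hzu, hwu]
      ring
    · rw [hh.add, hh.smul, hzv, hwv]
      ring
    · rw [hh.add, hh.smul, hh.add_right, hh.add_right, hh.smul_right, hh.smul_right, hww, hc', mul_zero, add_zero,
        hc]
      rw [trc] at ht
      rw [add_assoc, add_comm (star t) t, ht, ← add_assoc, CharTwo.add_self_eq_zero, zero_add]
      exact one_ne_zero
    · rw [hh.add, hh.smul, hww, mul_zero, add_zero]
      exact hzw
  · exact ⟨w, hwu, hwv, hww, hww⟩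

theorem exists_aniso (hh : Herm h) (hstar : ∃ x : K, star x ≠ x) (hdim : 3 ≤ Module.finrank K V)
    {u v : V} (hu : Iso h u) (hv : Iso h v) (huv : h u v = 1) :
    ∃ e, h e u = 0 ∧ h e v = 0 ∧ h e e ≠ 0 := by
  classical
  obtain ⟨x, hx⟩ := exists_notMem56 (K := K) ({u, v} : Finset V)
    (lt_of_le_of_lt Finset.card_le_two (by omega))
  obtain ⟨w, hwu, hwv, hw⟩ := decomp hh hu hv huv x
  have hw0 : w ≠ 0 := by
    rintro rfl
    apply hx
    rw [hw, add_zero]
    have m1 : u ∈ Submodule.span K ((({u, v} : Finset V)) : Set V) :=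
      Submodule.subset_span (by simp)
    have m2 : v ∈ Submodule.span K ((({u, v} : Finset V)) : Set V) :=
      Submodule.subset_span (by simp)
    exact Submodule.add_mem _ (Submodule.smul_mem _ _ m1) (Submodule.smul_mem _ _ m2)
  obtain ⟨e, h1, h2, h3, -⟩ := exists_not_perp hh hstar hu hv huv hwu hwv hw0
  exact ⟨e, h1, h2, h3⟩

theorem exists_iso (hh : Herm h) (hstar : ∃ x : K, star x ≠ x) (hdim : 2 ≤ Module.finrank K V) :
    ∃ u, Iso h u := by
  classical
  obtain ⟨e, he⟩ := exists_notMem56 (K := K) (∅ : Finset V) (by rw [Finset.card_empty]; omega)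
  have he0 : e ≠ 0 := by
    rintro rfl
    exact he (Submodule.zero_mem _)
  by_cases hee : h e e = 0
  · exact ⟨e, he0, hee⟩
  obtain ⟨x, hx⟩ := exists_notMem56 (K := K) ({e} : Finset V) (by rw [Finset.card_singleton]; omega)
  obtain ⟨f, hf⟩ : ∃ f, f = x + (-(h x e / h e e)) • e := ⟨_, rfl⟩
  have hfe : h f e = 0 := by
    rw [hf, hh.add, hh.smul]
    field_simp
    ring
  have hf0 : f ≠ 0 := by
    intro h0
    apply hx
    rw [h0] at hf
    have h1 : x = (h x e / h e e) • e := by
      have h2 : x + (-(h x e / h e e)) • e + (h x e / h e e) • e = (h x e / h e e) • e := by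
        rw [← hf, zero_add]
      rw [← h2]
      module
    rw [h1]
    exact Submodule.smul_mem _ _ (Submodule.subset_span (by simp))
  by_cases hff : h f f = 0
  · exact ⟨f, hf0, hff⟩
  have hef : h e f = 0 := hh.eq_zero_comm.1 hfe
  obtain ⟨c, hc⟩ := nm_surj (s := h e e / h f f) (by rw [star_div₀, hh.self, hh.self])
  refine ⟨e + c • f, ?_, ?_⟩
  · intro h0
    apply hee
    have h1 : h (e + c • f) e = h e e := by
      rw [hh.add, hh.smul, hfe, mul_zero, add_zero]
    rw [← h1, h0, hh.zero_left]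
  · rw [hh.add, hh.smul, hh.add_right, hh.add_right, hh.smul_right, hh.smul_right, hef, hfe]
    have h1 : nm c * h f f = h e e := by
      rw [hc]
      exact div_mul_cancel₀ _ hff
    rw [nm] at h1
    have h2 : h e e + star c * 0 + c * (0 + star c * h f f) = h e e + c * star c * h f f := by ring
    rw [h2, h1]
    exact CharTwo.add_self_eq_zero _

end Pool.Agent.Helper81.UT
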