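import Pool.Agent.Helper81.UT.Defs

/-!
# Block UT-GA: transvections as elements of `V ≃ₗ[K] V`

`tv hh hu` is built from `act` (`act_act`). `tv_eq_iff`: if `h x u u = h x v v` for all `x` then `v = m u`
(choose `x` with `h x v ≠ 0`, `nondeg`) and `h x u = m star m h x u`. `tv_conj`: compute. `order_two`: for
involutions `a ≠ b` the order of `a b` is two iff they commute iff `a b a⁻¹ = b`, that is
(`tv_conj`, `tv_eq_iff`) `Eqv K (act h u v) v`; if `h v u ≠ 0` this says `v = c u`, so `h v u = 0`.
`order_three`: for involutions the order of `a b` is three iff `a ≠ b` and `a b a = b a b`, that is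
`tv (act h u v) = tv (act h v u)`, `v + h v u u` and `u + h u v v` are equal up to norm one; if `h u v ≠ 0`
the vectors `u`, `v` are independent and this says `m h u v = 1`, `m = h v u`, so `nm (h u v) = 1`; if
`h u v = 0` it says `Eqv K u v`, `a = b`.
-/

set_option autoImplicit false

namespace Pool.Agent.Helper81.UT

variable {K V : Type*} [Field K] [CharP K 2] [StarRing K] [AddCommGroup V] [Module K V]
  {h : V → V → K}

/-- The transvection of an isotropic vector. -/
def tv (hh : Herm h) {u : V} (hu : Iso h u) : V ≃ₗ[K] V where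
  toFun := act h u
  invFun := act h u
  left_inv := act_act hh hu
  right_inv := act_act hh hu
  map_add' x y := by
    rw [act, act, act, hh.add, add_smul]
    abel
  map_smul' c x := by
    rw [act, act, hh.smul, smul_add, smul_smul]
    rfl

theorem tv_apply (hh : Herm h) {u : V} (hu : Iso h u) (x : V) : tv hh hu x = act h u x := rfl

theorem tv_mul_self (hh : Herm h) {u : V} (hu : Iso h u) : tv hh hu * tv hh hu = 1 := by
  ext x
  exact act_act hh hu x

theorem tv_ne_one (hh : Herm h) {u : V} (hu : Iso h u) : tv hh hu ≠ 1 := by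
  intro h1
  apply hu.1
  apply hh.nondeg
  intro y
  have h2 : act h u y = y := by
    rw [← tv_apply hh hu, h1]
    rfl
  rw [act, add_eq_left, smul_eq_zero] at h2
  rcases h2 with h2 | h2
  · exact hh.eq_zero_comm.1 h2
  · exact absurd h2 hu.1

theorem tv_eq_iff (hh : Herm h) {u v : V} (hu : Iso h u) (hv : Iso h v) :
    tv hh hu = tv hh hv ↔ Eqv K u v := by
  constructor
  · intro h1
    have h2 : ∀ x, h x u • u = h x v • v := by
      intro x
      have h3 : act h u x = act h v x := by
        rw [← tv_apply hh hu, h1, tv_apply]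
      exact add_left_cancel h3
    obtain ⟨x, hx⟩ : ∃ x, h x v ≠ 0 := by
      by_contra hc
      push Not at hc
      exact hv.1 (hh.nondeg v fun y => hh.eq_zero_comm.1 (hc y))
    set m : K := (h x v)⁻¹ * h x u with hm
    have hvm : v = m • u := by
      rw [hm, mul_smul, h2, smul_smul, inv_mul_cancel₀ hx, one_smul]
    refine ⟨m, ?_, hvm⟩
    have h4 := h2 x
    rw [hvm, hh.smul_right, smul_smul, ← sub_eq_zero, ← sub_smul, smul_eq_zero] at h4
    rcases h4 with h4 | h4
    · rw [hvm, hh.smul_right] at hx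
      have hxu : h x u ≠ 0 := right_ne_zero_of_mul hx
      rw [nm]
      apply mul_left_cancel₀ hxu
      linear_combination -h4
    · exact absurd h4 hu.1
  · rintro ⟨m, hm, rfl⟩
    ext x
    rw [tv_apply, tv_apply, act, act, hh.smul_right, smul_smul]
    congr 2
    rw [nm] at hm
    linear_combination (-h x u) * hm

theorem tv_conj (hh : Herm h) {u : V} (hu : Iso h u) (g : V ≃ₗ[K] V)
    (hg : ∀ x y, h (g x) (g y) = h x y) (hgu : Iso h (g u)) :
    g * tv hh hu * g⁻¹ = tv hh hgu := by
  rw [mul_inv_eq_iff_eq_mul]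
  ext x
  show g (act h u x) = act h (g u) (g x)
  rw [act, act, map_add, map_smul, hg]

theorem inv_tv81 (hh : Herm h) {u : V} (hu : Iso h u) : (tv hh hu)⁻¹ = tv hh hu :=
  inv_eq_of_mul_eq_one_left (tv_mul_self hh hu)

theorem conj81 (hh : Herm h) {u v : V} (hu : Iso h u) (hv : Iso h v) :
    tv hh hu * tv hh hv * tv hh hu = tv hh (act_iso hh hu hv) := by
  have h1 := tv_conj hh hv (tv hh hu) (fun x y => h_act hh hu x y) (act_iso hh hu hv)
  rw [inv_tv81] at h1
  exact h1

theorem order_two (hh : Herm h) {u v : V} (hu : Iso h u) (hv : Iso h v) (huv : ¬ Eqv K u v) :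
    orderOf (tv hh hu * tv hh hv) = 2 ↔ h u v = 0 := by
  have h1 : orderOf (tv hh hu * tv hh hv) = 2 ↔
      tv hh hu * tv hh hv * tv hh hu = tv hh hv ∧ tv hh hu * tv hh hv ≠ 1 := by
    rw [orderOf_eq_prime_iff, pow_two]
    refine and_congr_left fun _ => ?_
    rw [← mul_assoc, mul_eq_one_iff_eq_inv, inv_tv81]
  have h2 : tv hh hu * tv hh hv ≠ 1 := by
    rw [Ne, mul_eq_one_iff_eq_inv, inv_tv81, tv_eq_iff]
    exact huv
  rw [h1, conj81, tv_eq_iff]
  constructor
  · rintro ⟨⟨m, hm, h3⟩, -⟩
    by_contra h0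
    have h0' : h v u ≠ 0 := fun hc => h0 (hh.eq_zero_comm.1 hc)
    rw [act] at h3
    have h4 : (m * h v u) • u = (1 - m) • v := by
      rw [sub_smul, one_smul]
      rw [smul_add, smul_smul] at h3
      rw [eq_sub_iff_add_eq, add_comm]
      exact h3.symm
    have hm0 : m ≠ 0 := by
      rintro rfl
      rw [nm_zero] at hm
      exact zero_ne_one hm
    have h5 := congrArg (fun y => h y u) h4
    simp only [hh.smul, hu.2, mul_zero] at h5
    rcases mul_eq_zero.1 h5.symm with h6 | h6
    · rw [h6, zero_smul, smul_eq_zero, mul_eq_zero] at h4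
      rcases h4 with (h4 | h4) | h4
      · exact hm0 h4
      · exact h0' h4
      · exact hu.1 h4
    · exact h0' h6
  · intro h0
    refine ⟨?_, h2⟩
    rw [act, hh.eq_zero_comm.1 h0, zero_smul, add_zero]
    exact Eqv.refl v

theorem order_three (hh : Herm h) {u v : V} (hu : Iso h u) (hv : Iso h v) :
    orderOf (tv hh hu * tv hh hv) = 3 ↔ nm (h u v) = 1 := by
  have : Fact (Nat.Prime 3) := ⟨Nat.prime_three⟩
  have h1 : orderOf (tv hh hu * tv hh hv) = 3 ↔
      tv hh hu * tv hh hv * tv hh hu = tv hh hv * tv hh hu * tv hh hv ∧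
        tv hh hu * tv hh hv ≠ 1 := by
    rw [orderOf_eq_prime_iff, pow_succ, pow_two]
    refine and_congr_left fun _ => ?_
    have e : tv hh hu * tv hh hv * (tv hh hu * tv hh hv) * (tv hh hu * tv hh hv) =
        (tv hh hu * tv hh hv * tv hh hu) * (tv hh hv * tv hh hu * tv hh hv) := by
      group
    have e2 : (tv hh hv * tv hh hu * tv hh hv)⁻¹ = tv hh hv * tv hh hu * tv hh hv := by
      rw [mul_inv_rev, mul_inv_rev, inv_tv81, inv_tv81, mul_assoc]
    rw [e, mul_eq_one_iff_eq_inv, e2]
  rw [h1, conj81, conj81, tv_eq_iff]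
  have hne : h u v ≠ 0 → ∀ a b : K, a • u + b • v = 0 → a = 0 ∧ b = 0 := by
    intro h0 a b hab
    have h2 := congrArg (fun y => h y v) hab
    simp only [hh.add, hh.smul, hv.2, mul_zero, add_zero, hh.zero_left] at h2
    have ha : a = 0 := (mul_eq_zero.1 h2).resolve_right h0
    refine ⟨ha, ?_⟩
    rw [ha, zero_smul, zero_add, smul_eq_zero] at hab
    exact hab.resolve_right hv.1
  constructor
  · rintro ⟨⟨m, hm, h3⟩, h4⟩
    by_cases h0 : h u v = 0
    · exfalso
      apply h4
      rw [mul_eq_one_iff_eq_inv, inv_tv81, tv_eq_iff]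
      rw [act, act, h0, hh.eq_zero_comm.1 h0, zero_smul, zero_smul, add_zero, add_zero] at h3
      exact Eqv.symm ⟨m, hm, h3⟩
    · have h5 : (1 - m * h v u) • u + (h u v - m) • v = 0 := by
        rw [act, act, smul_add, smul_smul] at h3
        have h6 : u + h u v • v - (m • v + (m * h v u) • u) = 0 := sub_eq_zero.2 h3
        rw [← h6]
        module
      obtain ⟨h6, h7⟩ := hne h0 _ _ h5
      rw [sub_eq_zero.1 h7, hm]
  · intro h0
    have h0' : h u v ≠ 0 := fun hc => by
      rw [hc, nm_zero] at h0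
      exact zero_ne_one h0
    refine ⟨⟨h u v, h0, ?_⟩, ?_⟩
    · have h6 : h u v * h v u = 1 := by
        rw [← hh.symm u v]
        exact h0
      rw [act, act, smul_add, smul_smul, h6, one_smul, add_comm]
    · rw [Ne, mul_eq_one_iff_eq_inv, inv_tv81, tv_eq_iff]
      rintro ⟨m, -, rfl⟩
      rw [hh.smul_right, hu.2, mul_zero] at h0'
      exact h0' rfl

end Pool.Agent.Helper81.UT
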